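import Mathlib

set_option autoImplicit false

/-!
# MP_c82047_co: Brown-Erdos-Sos and ordered patterns: definitions
-/

namespace BESO

open Finset

/-- triples of natural numbers -/
abbrev Tr := ℕ × ℕ × ℕ

/-- two distinct triples of `H` agree in at most one position -/
structure Lin (H : Finset Tr) : Prop where
  xy : ∀ t ∈ H, ∀ t' ∈ H, t.1 = t'.1 → t.2.1 = t'.2.1 → t = t'
  xz : ∀ t ∈ H, ∀ t' ∈ H, t.1 = t'.1 → t.2.2 = t'.2.2 → t = t'
  yz : ∀ t ∈ H, ∀ t' ∈ H, t.2.1 = t'.2.1 → t.2.2 = t'.2.2 → t = t'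

/-- the cube with corner `q` and side `N` -/
def InBox (q : Tr) (N : ℕ) (t : Tr) : Prop :=
  (q.1 ≤ t.1 ∧ t.1 < q.1 + N) ∧ (q.2.1 ≤ t.2.1 ∧ t.2.1 < q.2.1 + N) ∧
    (q.2.2 ≤ t.2.2 ∧ t.2.2 < q.2.2 + N)

instance (q : Tr) (N : ℕ) : DecidablePred (InBox q N) := fun t => by
  unfold InBox
  infer_instance

/-- the block of side `M` containing `t`, relative to the corner `q` -/
def blk (M : ℕ) (q t : Tr) : Tr :=
  ((t.1 - q.1) / M, (t.2.1 - q.2.1) / M, (t.2.2 - q.2.2) / M)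

/-- `H` meets at most `K m ^ 2` of the blocks of side `M` of every cube of side `M m` -/
def Thin (K : ℕ) (H : Finset Tr) : Prop :=
  ∀ (M m : ℕ) (q : Tr), 0 < M → ((H.filter (InBox q (M * m))).image (blk M q)).card ≤ K * m ^ 2

/-- `H` contains a copy of the pattern `F`: three maps, injective on the coordinates of `F` -/
def Cop (F H : Finset Tr) : Prop :=
  ∃ α β γ : ℕ → ℕ, (∀ t ∈ F, (α t.1, β t.2.1, γ t.2.2) ∈ H) ∧
    ∀ t ∈ F, ∀ t' ∈ F, (α t.1 = α t'.1 → t.1 = t'.1) ∧ (β t.2.1 = β t'.2.1 → t.2.1 = t'.2.1) ∧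
      (γ t.2.2 = γ t'.2.2 → t.2.2 = t'.2.2)

/-- every large dense thin linear system contains `F` -/
def Cont (F : Finset Tr) : Prop :=
  ∀ (K : ℕ) (ε : ℝ), 0 < ε → ∃ n₀ : ℕ, ∀ n : ℕ, n₀ ≤ n → ∀ H : Finset Tr,
    (∀ t ∈ H, InBox (0, 0, 0) n t) → Lin H → Thin K H → ε * (n : ℝ) ^ 2 ≤ (H.card : ℝ) → Cop F H

/-- the triangle -/
def T3 : Finset Tr := {(0, 0, 1), (0, 1, 0), (1, 0, 0)}

/-- the product of two triples in base two -/
def mx (s t : Tr) : Tr := (2 * t.1 + s.1, 2 * t.2.1 + s.2.1, 2 * t.2.2 + s.2.2)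

/-- the product of the triangle and `F` -/
def tp (F : Finset Tr) : Finset Tr := (T3 ×ˢ F).image fun p => mx p.1 p.2

end BESO
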