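import Mathlib
import Pool.Agent.Lib.MP_c82047_co_OB.Defs

set_option autoImplicit false

/-!
# MP_c82047_co: the Ruzsa-Szemeredi theorem for linear systems of triples
-/

namespace BESO

open Finset SimpleGraph TripartiteFromTriangles

/-- a large dense linear system contains three triples which pairwise agree in one position -/
theorem rs {δ : ℝ} (hδ : 0 < δ) : ∃ m₀ : ℕ, ∀ m : ℕ, m₀ ≤ m → ∀ D : Finset Tr,
    (∀ t ∈ D, InBox (0, 0, 0) m t) → Lin D → δ * (m : ℝ) ^ 2 ≤ (D.card : ℝ) →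
      ∃ x x' y y' z z' : ℕ, x ≠ x' ∧ y ≠ y' ∧ z ≠ z' ∧
        (x, y, z') ∈ D ∧ (x, y', z) ∈ D ∧ (x', y, z) ∈ D := by
  classical
  obtain ⟨η, hη⟩ : ∃ η, η = min (δ / 9) (1 / 4) := ⟨_, rfl⟩
  have hη0 : 0 < η := by
    rw [hη]
    positivity
  have hη1 : η ≤ 1 := by
    rw [hη]
    exact (min_le_right _ _).trans (by norm_num)
  have hb : 0 < triangleRemovalBound η := triangleRemovalBound_pos hη0
  obtain ⟨m₀, hm₀⟩ := exists_nat_gt ((triangleRemovalBound η * 27)⁻¹)
  refine ⟨m₀ + 1, fun m hm D hD hL hc => ?_⟩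
  by_contra hcon
  push Not at hcon
  obtain ⟨t, ht⟩ : ∃ t : Finset (Fin m × Fin m × Fin m),
      t = univ.filter fun p => ((p.1 : ℕ), (p.2.1 : ℕ), (p.2.2 : ℕ)) ∈ D := ⟨_, rfl⟩
  have hmem : ∀ p : Fin m × Fin m × Fin m, p ∈ t ↔ ((p.1 : ℕ), (p.2.1 : ℕ), (p.2.2 : ℕ)) ∈ D := by
    intro p
    rw [ht]
    simp
  have hcard : t.card = D.card := by
    refine Finset.card_bij (fun p _ => ((p.1 : ℕ), (p.2.1 : ℕ), (p.2.2 : ℕ)))
      (fun p hp => (hmem p).1 hp) ?_ ?_
    · rintro ⟨a, b, c⟩ _ ⟨a', b', c'⟩ _ h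
      simp only [Prod.mk.injEq] at h
      exact Prod.ext (Fin.ext h.1) (Prod.ext (Fin.ext h.2.1) (Fin.ext h.2.2))
    · rintro ⟨a, b, c⟩ h
      have h1 := hD _ h
      simp only [InBox, zero_le, true_and, zero_add] at h1
      exact ⟨(⟨a, h1.1⟩, ⟨b, h1.2.1⟩, ⟨c, h1.2.2⟩), (hmem _).2 h, rfl⟩
  have hED : ExplicitDisjoint t := by
    refine ⟨?_, ?_, ?_⟩
    · intro a b c a' h h'
      have := hL.yz _ ((hmem _).1 h) _ ((hmem _).1 h') rfl rfl
      simp only [Prod.mk.injEq] at this
      exact Fin.ext this.1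
    · intro a b c b' h h'
      have := hL.xz _ ((hmem _).1 h) _ ((hmem _).1 h') rfl rfl
      simp only [Prod.mk.injEq] at this
      exact Fin.ext this.2.1
    · intro a b c c' h h'
      have := hL.xy _ ((hmem _).1 h) _ ((hmem _).1 h') rfl rfl
      simp only [Prod.mk.injEq] at this
      exact Fin.ext this.2.2
  have hNA : NoAccidental t := by
    refine ⟨fun a a' b b' c c' h1 h2 h3 => ?_⟩
    by_contra hne
    push Not at hne
    have h1' := (hmem _).1 h1
    have h2' := (hmem _).1 h2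
    have h3' := (hmem _).1 h3
    exact hcon a a' b b' c c' (fun h => hne.1 (Fin.ext h)) (fun h => hne.2.1 (Fin.ext h))
      (fun h => hne.2.2 (Fin.ext h)) h3' h2' h1'
  have hm1 : (0 : ℝ) < m := by
    have : 0 < m := by omega
    exact_mod_cast this
  have hfar : (graph t).FarFromTriangleFree η := by
    refine farFromTriangleFree _ ?_
    rw [hcard]
    simp only [Fintype.card_fin]
    push_cast
    have h1 : η ≤ δ / 9 := by
      rw [hη]
      exact min_le_left _ _
    have h2 : η * ((m : ℝ) + m + m) ^ 2 = 9 * η * (m : ℝ) ^ 2 := by ring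
    rw [h2]
    refine le_trans ?_ hc
    apply mul_le_mul_of_nonneg_right _ (sq_nonneg _)
    linarith
  have h1 := hfar.le_card_cliqueFinset
  rw [card_triangles, hcard] at h1
  have h2 : (D.card : ℝ) ≤ (m : ℝ) ^ 2 := by
    have h3 : D.card ≤ (range m ×ˢ range m).card := by
      refine Finset.card_le_card_of_injOn (fun t => (t.1, t.2.1)) ?_ ?_
      · intro p hp
        have h4 := hD p hp
        simp only [InBox, zero_le, true_and, zero_add] at h4
        simp only [coe_product, coe_range, Set.mem_prod, Set.mem_Iio]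
        exact ⟨h4.1, h4.2.1⟩
      · intro p hp p' hp' h
        simp only [Prod.mk.injEq] at h
        exact hL.xy p hp p' hp' h.1 h.2
    rw [card_product, card_range] at h3
    have : (D.card : ℝ) ≤ ((m * m : ℕ) : ℝ) := by exact_mod_cast h3
    rw [sq]
    exact_mod_cast this
  simp only [Fintype.card_sum, Fintype.card_fin] at h1
  push_cast at h1
  have h5 : triangleRemovalBound η * ((m : ℝ) + (m + m)) ^ 3 ≤ (m : ℝ) ^ 2 := h1.trans h2
  have h6 : triangleRemovalBound η * 27 * m ≤ 1 := by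
    have h7 : triangleRemovalBound η * ((m : ℝ) + (m + m)) ^ 3 =
        (triangleRemovalBound η * 27 * m) * (m : ℝ) ^ 2 := by ring
    rw [h7] at h5
    have h8 : (0 : ℝ) < (m : ℝ) ^ 2 := by positivity
    by_contra h9
    push Not at h9
    nlinarith
  have h10 : (triangleRemovalBound η * 27)⁻¹ < m := by
    refine hm₀.trans_le ?_
    have : m₀ ≤ m := by omega
    exact_mod_cast this
  rw [inv_lt_iff_one_lt_mul₀ (by positivity)] at h10
  linarith

end BESO
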