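import Mathlib
import Pool.Agent.Lib.MP_c82047_co_OB.RS

set_option autoImplicit false

/-!
# MP_c82047_co: the product step
-/

namespace BESO

open Finset

/-- the relative coordinates of the triples in a block -/
def loc (M : ℕ) (B : Tr) (H : Finset Tr) : Finset Tr :=
  (H.filter fun t => blk M (0, 0, 0) t = B).image fun t => (t.1 % M, t.2.1 % M, t.2.2 % M)

theorem blk_zero (M : ℕ) (t : Tr) : blk M (0, 0, 0) t = (t.1 / M, t.2.1 / M, t.2.2 / M) := by
  simp [blk]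

theorem mem_loc {M : ℕ} {B : Tr} {H : Finset Tr} {u : Tr} :
    u ∈ loc M B H ↔ (M * B.1 + u.1, M * B.2.1 + u.2.1, M * B.2.2 + u.2.2) ∈ H ∧
      ((∃ t ∈ H, blk M (0, 0, 0) t = B ∧ u = (t.1 % M, t.2.1 % M, t.2.2 % M))) := by
  constructor
  · intro h
    unfold loc at h
    rw [mem_image] at h
    obtain ⟨t, ht, rfl⟩ := h
    rw [mem_filter] at ht
    refine ⟨?_, t, ht.1, ht.2, rfl⟩
    rw [← ht.2, blk_zero]
    simp only [Nat.div_add_mod]
    exact ht.1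
  · rintro ⟨-, t, ht, hB, rfl⟩
    unfold loc
    rw [mem_image]
    exact ⟨t, mem_filter.2 ⟨ht, hB⟩, rfl⟩

theorem card_loc (M : ℕ) (B : Tr) (H : Finset Tr) :
    (loc M B H).card = (H.filter fun t => blk M (0, 0, 0) t = B).card := by
  unfold loc
  refine Finset.card_image_of_injOn fun t ht t' ht' h => ?_
  have h1 := (mem_filter.1 (Finset.mem_coe.1 ht)).2
  have h2 := (mem_filter.1 (Finset.mem_coe.1 ht')).2
  rw [blk_zero] at h1 h2
  simp only [Prod.mk.injEq] at h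
  have e1 : t.1 / M = t'.1 / M ∧ t.2.1 / M = t'.2.1 / M ∧ t.2.2 / M = t'.2.2 / M := by
    have h3 := h1.trans h2.symm
    simpa only [Prod.mk.injEq] using h3
  refine Prod.ext ?_ (Prod.ext ?_ ?_)
  · rw [← Nat.div_add_mod t.1 M, ← Nat.div_add_mod t'.1 M, e1.1, h.1]
  · rw [← Nat.div_add_mod t.2.1 M, ← Nat.div_add_mod t'.2.1 M, e1.2.1, h.2.1]
  · rw [← Nat.div_add_mod t.2.2 M, ← Nat.div_add_mod t'.2.2 M, e1.2.2, h.2.2]

theorem loc_box {M : ℕ} (hM : 0 < M) {B : Tr} {H : Finset Tr} {u : Tr} (hu : u ∈ loc M B H) :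
    InBox (0, 0, 0) M u := by
  obtain ⟨-, t, -, -, rfl⟩ := mem_loc.1 hu
  simp only [InBox, zero_le, true_and, zero_add]
  exact ⟨Nat.mod_lt _ hM, Nat.mod_lt _ hM, Nat.mod_lt _ hM⟩

theorem loc_lin {M : ℕ} {B : Tr} {H : Finset Tr} (hL : Lin H) : Lin (loc M B H) := by
  have key : ∀ u u' : Tr, (M * B.1 + u.1, M * B.2.1 + u.2.1, M * B.2.2 + u.2.2) =
      (M * B.1 + u'.1, M * B.2.1 + u'.2.1, M * B.2.2 + u'.2.2) → u = u' := by
    intro u u' h
    simp only [Prod.mk.injEq, add_right_inj] at h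
    exact Prod.ext h.1 (Prod.ext h.2.1 h.2.2)
  refine ⟨fun u hu u' hu' h1 h2 => ?_, fun u hu u' hu' h1 h2 => ?_, fun u hu u' hu' h1 h2 => ?_⟩
  · exact key u u' (hL.xy _ (mem_loc.1 hu).1 _ (mem_loc.1 hu').1 (by simp [h1]) (by simp [h2]))
  · exact key u u' (hL.xz _ (mem_loc.1 hu).1 _ (mem_loc.1 hu').1 (by simp [h1]) (by simp [h2]))
  · exact key u u' (hL.yz _ (mem_loc.1 hu).1 _ (mem_loc.1 hu').1 (by simp [h1]) (by simp [h2]))

theorem loc_thin {M K : ℕ} {B : Tr} {H : Finset Tr} (hT : Thin K H) : Thin K (loc M B H) := by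
  intro M' m' q hM'
  refine le_trans (Finset.card_le_card ?_)
    (hT M' m' (M * B.1 + q.1, M * B.2.1 + q.2.1, M * B.2.2 + q.2.2) hM')
  intro v hv
  rw [mem_image] at hv ⊢
  obtain ⟨u, hu, rfl⟩ := hv
  rw [mem_filter] at hu
  refine ⟨(M * B.1 + u.1, M * B.2.1 + u.2.1, M * B.2.2 + u.2.2), ?_, ?_⟩
  · rw [mem_filter]
    refine ⟨(mem_loc.1 hu.1).1, ?_⟩
    have h := hu.2
    simp only [InBox] at h ⊢
    omega
  · simp only [blk, Nat.add_sub_add_left]

/-- the number of triples of a linear system in a block -/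
theorem card_block_le {M : ℕ} (hM : 0 < M) {B : Tr} {H : Finset Tr} (hL : Lin H) :
    (loc M B H).card ≤ M ^ 2 := by
  have h3 : (loc M B H).card ≤ (range M ×ˢ range M).card := by
    refine Finset.card_le_card_of_injOn (fun t => (t.1, t.2.1)) ?_ ?_
    · intro p hp
      have h4 := loc_box hM hp
      simp only [InBox, zero_le, true_and, zero_add] at h4
      simp only [coe_product, coe_range, Set.mem_prod, Set.mem_Iio]
      exact ⟨h4.1, h4.2.1⟩
    · intro p hp p' hp' h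
      simp only [Prod.mk.injEq] at h
      exact (loc_lin hL).xy p hp p' hp' h.1 h.2
  rwa [card_product, card_range, ← sq] at h3

/-- extension by zero -/
def ex {s M : ℕ} (f : Fin s → Fin M) (i : ℕ) : ℕ := if h : i < s then (f ⟨i, h⟩ : ℕ) else 0

theorem ex_lt {s M : ℕ} (hM : 0 < M) (f : Fin s → Fin M) (i : ℕ) : ex f i < M := by
  unfold ex
  split_ifs with h
  · exact (f ⟨i, h⟩).2
  · exact hM

theorem exists_ex {s M : ℕ} (hM : 0 < M) (α : ℕ → ℕ) :
    ∃ f : Fin s → Fin M, ∀ i, i < s → α i < M → ex f i = α i := by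
  refine ⟨fun i => ⟨α i % M, Nat.mod_lt _ hM⟩, fun i hi h => ?_⟩
  unfold ex
  rw [dif_pos hi]
  exact Nat.mod_eq_of_lt h

/-- the block `B` contains the pattern `F` in the relative position `f, g, h` -/
def Good (F H : Finset Tr) (M : ℕ) (B : Tr) (α β γ : ℕ → ℕ) : Prop :=
  (∀ t ∈ F, (M * B.1 + α t.1, M * B.2.1 + β t.2.1, M * B.2.2 + γ t.2.2) ∈ H) ∧
    ∀ t ∈ F, ∀ t' ∈ F, (α t.1 = α t'.1 → t.1 = t'.1) ∧ (β t.2.1 = β t'.2.1 → t.2.1 = t'.2.1) ∧
      (γ t.2.2 = γ t'.2.2 → t.2.2 = t'.2.2)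

theorem good_of_cop {F H : Finset Tr} {M s : ℕ} (hM : 0 < M) {B : Tr}
    (hs : ∀ t ∈ F, t.1 < s ∧ t.2.1 < s ∧ t.2.2 < s) (h : Cop F (loc M B H)) :
    ∃ f g k : Fin s → Fin M, Good F H M B (ex f) (ex g) (ex k) := by
  obtain ⟨α, β, γ, h1, h2⟩ := h
  obtain ⟨f, hf⟩ := exists_ex (s := s) hM α
  obtain ⟨g, hg⟩ := exists_ex (s := s) hM β
  obtain ⟨k, hk⟩ := exists_ex (s := s) hM γ
  have e : ∀ t ∈ F, ex f t.1 = α t.1 ∧ ex g t.2.1 = β t.2.1 ∧ ex k t.2.2 = γ t.2.2 := by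
    intro t ht
    have h3 := loc_box hM (h1 t ht)
    simp only [InBox, zero_le, true_and, zero_add] at h3
    exact ⟨hf _ (hs t ht).1 h3.1, hg _ (hs t ht).2.1 h3.2.1, hk _ (hs t ht).2.2 h3.2.2⟩
  refine ⟨f, g, k, fun t ht => ?_, fun t ht t' ht' => ?_⟩
  · obtain ⟨e1, e2, e3⟩ := e t ht
    rw [e1, e2, e3]
    exact (mem_loc.1 (h1 t ht)).1
  · obtain ⟨e1, e2, e3⟩ := e t ht
    obtain ⟨e1', e2', e3'⟩ := e t' ht'
    rw [e1, e2, e3, e1', e2', e3']
    exact h2 t ht t' ht'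

theorem mul_add_inj {M a b c d : ℕ} (hb : b < M) (hd : d < M) (h : M * a + b = M * c + d) :
    a = c ∧ b = d := by
  have h1 : (M * a + b) / M = a := by
    rw [Nat.mul_add_div (by omega), Nat.div_eq_of_lt hb, add_zero]
  have h2 : (M * c + d) / M = c := by
    rw [Nat.mul_add_div (by omega), Nat.div_eq_of_lt hd, add_zero]
  have h3 : a = c := by rw [← h1, ← h2, h]
  subst h3
  exact ⟨rfl, by omega⟩

/-- assembling a copy of `tp F` from a triangle of blocks of the same type -/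
theorem assemble {F H : Finset Tr} {M : ℕ} {x x' y y' z z' : ℕ} (hx : x ≠ x')
    (hy : y ≠ y') (hz : z ≠ z') {α β γ : ℕ → ℕ} (hα : ∀ i, α i < M) (hβ : ∀ i, β i < M)
    (hγ : ∀ i, γ i < M) (h1 : Good F H M (x, y, z') α β γ) (h2 : Good F H M (x, y', z) α β γ)
    (h3 : Good F H M (x', y, z) α β γ) : Cop (tp F) H := by
  refine ⟨fun u => M * (if u % 2 = 0 then x else x') + α (u / 2),
    fun u => M * (if u % 2 = 0 then y else y') + β (u / 2),
    fun u => M * (if u % 2 = 0 then z else z') + γ (u / 2), ?_, ?_⟩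
  · intro t ht
    simp only [tp, mem_image, mem_product, Prod.exists] at ht
    obtain ⟨i, j, k, a, b, c, ⟨hs, hF⟩, rfl⟩ := ht
    simp only [T3, mem_insert, mem_singleton, Prod.mk.injEq] at hs
    simp only [mx]
    rcases hs with ⟨rfl, rfl, rfl⟩ | ⟨rfl, rfl, rfl⟩ | ⟨rfl, rfl, rfl⟩
    · have := h1.1 _ hF
      simpa [Nat.mul_add_mod, Nat.mul_add_div] using this
    · have := h2.1 _ hF
      simpa [Nat.mul_add_mod, Nat.mul_add_div] using this
    · have := h3.1 _ hF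
      simpa [Nat.mul_add_mod, Nat.mul_add_div] using this
  · have key : ∀ (v v' : ℕ) (ρ : ℕ → ℕ), v ≠ v' → (∀ i, ρ i < M) → ∀ i i' a a' : ℕ, i < 2 →
        i' < 2 → (ρ a = ρ a' → a = a') →
        M * (if (2 * a + i) % 2 = 0 then v else v') + ρ ((2 * a + i) / 2) =
          M * (if (2 * a' + i') % 2 = 0 then v else v') + ρ ((2 * a' + i') / 2) →
        2 * a + i = 2 * a' + i' := by
      intro v v' ρ hv hρ i i' a a' hi hi' hinj h
      obtain ⟨e1, e2⟩ := mul_add_inj (hρ _) (hρ _) h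
      have d1 : (2 * a + i) / 2 = a := by omega
      have d2 : (2 * a' + i') / 2 = a' := by omega
      rw [d1, d2] at e2
      have e3 := hinj e2
      have e4 : i = i' := by
        interval_cases i <;> interval_cases i' <;> simp_all
      rw [e3, e4]
    intro t ht t' ht'
    simp only [tp, mem_image, mem_product, Prod.exists] at ht ht'
    obtain ⟨i, j, k, a, b, c, ⟨hs, hF⟩, rfl⟩ := ht
    obtain ⟨i', j', k', a', b', c', ⟨hs', hF'⟩, rfl⟩ := ht'
    have hinj := h1.2 _ hF _ hF'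
    have b1 : i < 2 ∧ j < 2 ∧ k < 2 := by
      simp only [T3, mem_insert, mem_singleton, Prod.mk.injEq] at hs
      omega
    have b2 : i' < 2 ∧ j' < 2 ∧ k' < 2 := by
      simp only [T3, mem_insert, mem_singleton, Prod.mk.injEq] at hs'
      omega
    exact ⟨key x x' α hx hα i i' a a' b1.1 b2.1 hinj.1,
      key y y' β hy hβ j j' b b' b1.2.1 b2.2.1 hinj.2.1,
      key z z' γ hz hγ k k' c c' b1.2.2 b2.2.2 hinj.2.2⟩

theorem cont_step {F : Finset Tr} (hF : F.Nonempty) (hc : Cont F) : Cont (tp F) := by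
  classical
  intro K ε hε
  have hK : (0 : ℝ) ≤ K := Nat.cast_nonneg K
  obtain ⟨M0, hM0⟩ := hc K (ε / (8 * (K + 1))) (by positivity)
  obtain ⟨M, hMd⟩ : ∃ M, M = M0 + 1 := ⟨_, rfl⟩
  have hM : 0 < M := by omega
  obtain ⟨s, hs⟩ : ∃ s, ∀ t ∈ F, t.1 < s ∧ t.2.1 < s ∧ t.2.2 < s := by
    refine ⟨F.sup (fun t => t.1 + t.2.1 + t.2.2) + 1, fun t ht => ?_⟩
    have h1 := Finset.le_sup (f := fun t : Tr => t.1 + t.2.1 + t.2.2) ht
    omega
  have hne : Nonempty (Fin M) := ⟨⟨0, hM⟩⟩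
  obtain ⟨N, hN⟩ : ∃ N, N = Fintype.card ((Fin s → Fin M) × (Fin s → Fin M) × (Fin s → Fin M)) :=
    ⟨_, rfl⟩
  have hN0 : 0 < N := by
    rw [hN]
    exact Fintype.card_pos
  have hN1 : (0 : ℝ) < N := by exact_mod_cast hN0
  obtain ⟨m0, hm0⟩ := rs (δ := ε / (8 * N)) (by positivity)
  refine ⟨M * (m0 + 1), fun n hn H hH hL hT hcard => ?_⟩
  obtain ⟨m, hm⟩ : ∃ m, m = n / M + 1 := ⟨_, rfl⟩
  have hnm : n < M * m := by
    rw [hm]
    exact Nat.lt_mul_div_succ n hM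
  have hmn : M * m ≤ n + M := by
    rw [hm, mul_add, mul_one]
    have := Nat.mul_div_le n M
    omega
  have hMn : M ≤ n := by
    have : M * 1 ≤ M * (m0 + 1) := Nat.mul_le_mul_left _ (by omega)
    omega
  have hm0m : m0 ≤ m := by
    rw [hm]
    have : m0 + 1 ≤ n / M := (Nat.le_div_iff_mul_le hM).2 (by rw [mul_comm]; exact hn)
    exact (Nat.le_succ m0).trans (this.trans (Nat.le_succ _))
  have r1 : (M : ℝ) * m ≤ 2 * n := by
    have : M * m ≤ 2 * n := by omega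
    exact_mod_cast this
  have hMr : (0 : ℝ) < M := by exact_mod_cast hM
  have hmr : (0 : ℝ) < m := by
    have : 0 < m := by
      rw [hm]
      exact Nat.succ_pos _
    exact_mod_cast this
  have r2 : (M : ℝ) ^ 2 * (m : ℝ) ^ 2 ≤ 4 * (n : ℝ) ^ 2 := by
    have h1 : (0 : ℝ) ≤ (M : ℝ) * m := by positivity
    nlinarith
  -- the blocks
  obtain ⟨Bs, hBs⟩ : ∃ Bs, Bs = H.image (blk M (0, 0, 0)) := ⟨_, rfl⟩
  have hBcard : Bs.card ≤ K * m ^ 2 := by
    have h1 := hT M m (0, 0, 0) hM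
    have h2 : H.filter (InBox (0, 0, 0) (M * m)) = H := by
      apply Finset.filter_true_of_mem
      intro t ht
      have h3 := hH t ht
      simp only [InBox] at h3 ⊢
      omega
    rwa [h2, ← hBs] at h1
  have hsum : (H.card : ℝ) = ∑ B ∈ Bs, ((loc M B H).card : ℝ) := by
    have h1 : H.card = ∑ B ∈ Bs, (loc M B H).card := by
      rw [hBs, Finset.card_eq_sum_card_image (blk M (0, 0, 0)) H]
      exact Finset.sum_congr rfl fun B _ => (card_loc M B H).symm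
    rw [h1]
    push_cast
    rfl
  obtain ⟨ε₁, hε₁⟩ : ∃ ε₁, ε₁ = ε / (8 * ((K : ℝ) + 1)) := ⟨_, rfl⟩
  have hε₁0 : 0 < ε₁ := by
    rw [hε₁]
    positivity
  obtain ⟨Ds, hDs⟩ : ∃ Ds, Ds = Bs.filter fun B => ε₁ * (M : ℝ) ^ 2 ≤ ((loc M B H).card : ℝ) :=
    ⟨_, rfl⟩
  have hD1 : ε * (m : ℝ) ^ 2 / 8 ≤ (Ds.card : ℝ) := by
    have h1 : ∀ B ∈ Bs, ((loc M B H).card : ℝ) ≤
        (if ε₁ * (M : ℝ) ^ 2 ≤ ((loc M B H).card : ℝ) then (M : ℝ) ^ 2 else 0) +
          ε₁ * (M : ℝ) ^ 2 := by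
      intro B _
      have h2 : ((loc M B H).card : ℝ) ≤ (M : ℝ) ^ 2 := by
        exact_mod_cast card_block_le hM hL
      split_ifs with h3
      · have : 0 ≤ ε₁ * (M : ℝ) ^ 2 := by positivity
        linarith
      · push Not at h3
        linarith
    have h4 := Finset.sum_le_sum h1
    rw [← hsum, Finset.sum_add_distrib, ← Finset.sum_filter, ← hDs, Finset.sum_const,
      Finset.sum_const, nsmul_eq_mul, nsmul_eq_mul] at h4
    have h5 : (Bs.card : ℝ) ≤ K * (m : ℝ) ^ 2 := by exact_mod_cast hBcard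
    have h6 : (Bs.card : ℝ) * (ε₁ * (M : ℝ) ^ 2) ≤ ε * (n : ℝ) ^ 2 / 2 := by
      calc (Bs.card : ℝ) * (ε₁ * (M : ℝ) ^ 2) ≤ (K * (m : ℝ) ^ 2) * (ε₁ * (M : ℝ) ^ 2) :=
            mul_le_mul_of_nonneg_right h5 (by positivity)
        _ = K * ε₁ * ((M : ℝ) ^ 2 * (m : ℝ) ^ 2) := by ring
        _ ≤ K * ε₁ * (4 * (n : ℝ) ^ 2) := mul_le_mul_of_nonneg_left r2 (by positivity)
        _ ≤ ((K + 1) * ε₁) * (4 * (n : ℝ) ^ 2) := by
            apply mul_le_mul_of_nonneg_right _ (by positivity)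
            nlinarith
        _ = ε * (n : ℝ) ^ 2 / 2 := by
            rw [hε₁]
            field_simp
            ring
    have h7 : ε * (n : ℝ) ^ 2 / 2 ≤ (Ds.card : ℝ) * (M : ℝ) ^ 2 := by linarith
    have h8 : ε * (m : ℝ) ^ 2 / 8 * (M : ℝ) ^ 2 ≤ (Ds.card : ℝ) * (M : ℝ) ^ 2 := by
      refine le_trans ?_ h7
      have : ε * ((M : ℝ) ^ 2 * (m : ℝ) ^ 2) ≤ ε * (4 * (n : ℝ) ^ 2) :=
        mul_le_mul_of_nonneg_left r2 hε.le
      linarith
    exact le_of_mul_le_mul_right h8 (by positivity)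
  -- the types
  have hgood : ∀ B : Tr, ∃ ty : (Fin s → Fin M) × (Fin s → Fin M) × (Fin s → Fin M),
      B ∈ Ds → Good F H M B (ex ty.1) (ex ty.2.1) (ex ty.2.2) := by
    intro B
    by_cases hB : B ∈ Ds
    · have h1 : ε₁ * (M : ℝ) ^ 2 ≤ ((loc M B H).card : ℝ) := by
        rw [hDs, mem_filter] at hB
        exact hB.2
      rw [hε₁] at h1
      have h2 := hM0 M (by omega) (loc M B H) (fun t ht => loc_box hM ht) (loc_lin hL)
        (loc_thin hT) h1
      obtain ⟨f, g, k, h3⟩ := good_of_cop hM hs h2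
      exact ⟨(f, g, k), fun _ => h3⟩
    · exact ⟨Classical.arbitrary _, fun h => absurd h hB⟩
  choose ty hty using hgood
  obtain ⟨τ, hτ⟩ : ∃ τ, (Ds.card : ℝ) ≤ N * ((Ds.filter fun B => ty B = τ).card : ℝ) := by
    by_contra hcon
    push Not at hcon
    have h1 : Ds.card = ∑ τ, (Ds.filter fun B => ty B = τ).card :=
      Finset.card_eq_sum_card_fiberwise (t := univ) fun B _ => by simp
    have h2 : (N : ℝ) * Ds.card < (N : ℝ) * Ds.card := by
      calc (N : ℝ) * Ds.card = ∑ τ, (N : ℝ) * ((Ds.filter fun B => ty B = τ).card : ℝ) := by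
            rw [h1]
            push_cast
            rw [Finset.mul_sum]
        _ < ∑ _τ : (Fin s → Fin M) × (Fin s → Fin M) × (Fin s → Fin M), (Ds.card : ℝ) :=
            Finset.sum_lt_sum_of_nonempty Finset.univ_nonempty fun τ _ => hcon τ
        _ = (N : ℝ) * Ds.card := by
            rw [Finset.sum_const, Finset.card_univ, nsmul_eq_mul, ← hN]
    exact lt_irrefl _ h2
  obtain ⟨D, hD⟩ : ∃ D, D = Ds.filter fun B => ty B = τ := ⟨_, rfl⟩
  rw [← hD] at hτ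
  have hDG : ∀ B ∈ D, Good F H M B (ex τ.1) (ex τ.2.1) (ex τ.2.2) := by
    intro B hB
    rw [hD, mem_filter] at hB
    have := hty B hB.1
    rwa [hB.2] at this
  obtain ⟨t₀, ht₀⟩ := hF
  have hDL : Lin D := by
    refine ⟨fun B hB B' hB' e1 e2 => ?_, fun B hB B' hB' e1 e2 => ?_,
      fun B hB B' hB' e1 e2 => ?_⟩
    · have h1 := hL.xy _ ((hDG B hB).1 t₀ ht₀) _ ((hDG B' hB').1 t₀ ht₀) (by simp [e1])
        (by simp [e2])
      simp only [Prod.mk.injEq, add_left_inj] at h1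
      exact Prod.ext e1 (Prod.ext e2 (Nat.eq_of_mul_eq_mul_left hM h1.2.2))
    · have h1 := hL.xz _ ((hDG B hB).1 t₀ ht₀) _ ((hDG B' hB').1 t₀ ht₀) (by simp [e1])
        (by simp [e2])
      simp only [Prod.mk.injEq, add_left_inj] at h1
      exact Prod.ext e1 (Prod.ext (Nat.eq_of_mul_eq_mul_left hM h1.2.1) e2)
    · have h1 := hL.yz _ ((hDG B hB).1 t₀ ht₀) _ ((hDG B' hB').1 t₀ ht₀) (by simp [e1])
        (by simp [e2])
      simp only [Prod.mk.injEq, add_left_inj] at h1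
      exact Prod.ext (Nat.eq_of_mul_eq_mul_left hM h1.1) (Prod.ext e1 e2)
  have hDbox : ∀ B ∈ D, InBox (0, 0, 0) m B := by
    intro B hB
    rw [hD, mem_filter, hDs, mem_filter, hBs, mem_image] at hB
    obtain ⟨⟨⟨t, ht, rfl⟩, -⟩, -⟩ := hB
    have h3 := hH t ht
    rw [blk_zero]
    simp only [InBox, zero_le, true_and, zero_add] at h3 ⊢
    exact ⟨Nat.div_lt_of_lt_mul (by omega), Nat.div_lt_of_lt_mul (by omega),
      Nat.div_lt_of_lt_mul (by omega)⟩
  have hDc : ε / (8 * N) * (m : ℝ) ^ 2 ≤ (D.card : ℝ) := by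
    have h1 := hD1.trans hτ
    rw [div_mul_eq_mul_div, div_le_iff₀ (by positivity)]
    linarith
  obtain ⟨x, x', y, y', z, z', hx, hy, hz, h1, h2, h3⟩ := hm0 m hm0m D hDbox hDL hDc
  exact assemble hx hy hz (fun i => ex_lt hM _ i) (fun i => ex_lt hM _ i) (fun i => ex_lt hM _ i)
    (hDG _ h1) (hDG _ h2) (hDG _ h3)

end BESO
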