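import Mathlib
import Pool.Agent.Lib.MP_c82047_co_OB.Step

set_option autoImplicit false

/-!
# MP_c82047_co: the patterns
-/

namespace BESO

open Finset

/-- the number of points of a pattern -/
def vx (F : Finset Tr) : ℕ :=
  (F.image fun t => t.1).card + (F.image fun t => t.2.1).card + (F.image fun t => t.2.2).card

theorem cont_one : Cont {(0, 0, 0)} := by
  intro K ε hε
  refine ⟨1, fun n hn H _ _ _ hc => ?_⟩
  have h1 : (0 : ℝ) < n := by exact_mod_cast hn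
  have h2 : (0 : ℝ) < H.card := lt_of_lt_of_le (by positivity) hc
  have h3 : 0 < H.card := by exact_mod_cast h2
  obtain ⟨t, ht⟩ := Finset.card_pos.1 h3
  refine ⟨fun _ => t.1, fun _ => t.2.1, fun _ => t.2.2, fun _ _ => ht, fun s hs s' hs' => ?_⟩
  rw [mem_singleton] at hs hs'
  rw [hs, hs']
  exact ⟨fun _ => rfl, fun _ => rfl, fun _ => rfl⟩

theorem Cont.mono {F F' : Finset Tr} (h : Cont F) (hs : F' ⊆ F) : Cont F' := by
  intro K ε hε
  obtain ⟨n₀, hn₀⟩ := h K ε hε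
  refine ⟨n₀, fun n hn H hH hL hT hc => ?_⟩
  obtain ⟨α, β, γ, h1, h2⟩ := hn₀ n hn H hH hL hT hc
  exact ⟨α, β, γ, fun t ht => h1 t (hs ht), fun t ht t' ht' => h2 t (hs ht) t' (hs ht')⟩

theorem mx_inj {s s' t t' : Tr} (hs : s ∈ T3) (hs' : s' ∈ T3) (h : mx s t = mx s' t') :
    s = s' ∧ t = t' := by
  simp only [T3, mem_insert, mem_singleton, Prod.ext_iff] at hs hs'
  simp only [mx, Prod.mk.injEq] at h
  constructor
  · refine Prod.ext ?_ (Prod.ext ?_ ?_) <;> omega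
  · refine Prod.ext ?_ (Prod.ext ?_ ?_) <;> omega

theorem card_tp (F : Finset Tr) : (tp F).card = 3 * F.card := by
  unfold tp
  rw [Finset.card_image_of_injOn, card_product]
  · rfl
  · rintro ⟨s, t⟩ h ⟨s', t'⟩ h' e
    rw [Finset.mem_coe, mem_product] at h h'
    obtain ⟨h1, h2⟩ := mx_inj h.1 h'.1 e
    exact Prod.ext h1 h2

theorem vx_tp (F : Finset Tr) : vx (tp F) ≤ 2 * vx F := by
  have key : ∀ (f : Tr → ℕ), (∀ s ∈ T3, ∀ t, f (mx s t) = 2 * f t + f s) → (∀ s ∈ T3, f s < 2) →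
      ((tp F).image f).card ≤ 2 * (F.image f).card := by
    intro f h1 h2
    have h3 : (tp F).image f ⊆ (range 2 ×ˢ F.image f).image fun p => 2 * p.2 + p.1 := by
      intro x hx
      rw [mem_image] at hx
      obtain ⟨u, hu, rfl⟩ := hx
      unfold tp at hu
      rw [mem_image] at hu
      obtain ⟨⟨s, t⟩, hst, rfl⟩ := hu
      rw [mem_product] at hst
      rw [mem_image]
      refine ⟨(f s, f t), ?_, (h1 s hst.1 t).symm⟩
      rw [mem_product, mem_range]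
      exact ⟨h2 s hst.1, mem_image_of_mem f hst.2⟩
    refine (Finset.card_le_card h3).trans (Finset.card_image_le.trans (le_of_eq ?_))
    rw [card_product, card_range]
  have b : ∀ s ∈ T3, s.1 < 2 ∧ s.2.1 < 2 ∧ s.2.2 < 2 := by
    intro s hs
    simp only [T3, mem_insert, mem_singleton, Prod.ext_iff] at hs
    omega
  have k1 := key (fun t => t.1) (fun s _ t => rfl) (fun s hs => (b s hs).1)
  have k2 := key (fun t => t.2.1) (fun s _ t => rfl) (fun s hs => (b s hs).2.1)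
  have k3 := key (fun t => t.2.2) (fun s _ t => rfl) (fun s hs => (b s hs).2.2)
  unfold vx
  omega

theorem tp_nonempty {F : Finset Tr} (h : F.Nonempty) : (tp F).Nonempty := by
  rw [← Finset.card_pos] at h ⊢
  rw [card_tp]
  omega

/-- the powers of the triangle -/
def pw : ℕ → Finset Tr
  | 0 => {(0, 0, 0)}
  | n + 1 => tp (pw n)

theorem pw_facts (m : ℕ) : Cont (pw m) ∧ (pw m).Nonempty ∧ (pw m).card = 3 ^ m ∧
    vx (pw m) ≤ 3 * 2 ^ m := by
  induction m with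
  | zero => exact ⟨cont_one, ⟨(0, 0, 0), mem_singleton_self _⟩, rfl, le_of_eq rfl⟩
  | succ m ih =>
    obtain ⟨h1, h2, h3, h4⟩ := ih
    refine ⟨cont_step h2 h1, tp_nonempty h2, ?_, ?_⟩
    · show (tp (pw m)).card = _
      rw [card_tp, h3, pow_succ, mul_comm]
    · have := vx_tp (pw m)
      show vx (tp (pw m)) ≤ _
      rw [pow_succ]
      omega

/-- there is a contained pattern with at most `k` points and at least `k - 3` triples -/
def Has (k : ℕ) : Prop := ∃ F : Finset Tr, Cont F ∧ F.Nonempty ∧ vx F ≤ k ∧ k - 3 ≤ F.card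

theorem Has.double {k : ℕ} (hk : 7 ≤ k) (h : Has k) : Has (2 * k) ∧ Has (2 * k + 1) := by
  obtain ⟨F, h1, h2, h3, h4⟩ := h
  have h5 := vx_tp F
  have h6 := card_tp F
  exact ⟨⟨tp F, cont_step h2 h1, tp_nonempty h2, by omega, by omega⟩,
    ⟨tp F, cont_step h2 h1, tp_nonempty h2, by omega, by omega⟩⟩

/-- the patterns for small `k` -/
def small : ℕ → Finset Tr
  | 6 =>
    {(6, 0, 1), (6, 1, 0), (7, 0, 0)}
  | 9 =>
    {(4, 2, 1), (6, 0, 1), (4, 1, 2), (6, 1, 0), (5, 0, 2), (5, 2, 0)}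
  | 10 =>
    {(4, 2, 1), (6, 0, 1), (4, 1, 2), (6, 1, 0), (5, 0, 2), (5, 2, 0), (7, 0, 0)}
  | 11 =>
    {(4, 2, 1), (6, 0, 1), (4, 1, 2), (4, 3, 0), (6, 1, 0), (5, 0, 2), (5, 2, 0), (7, 0, 0)}
  | 12 =>
    {(4, 0, 3), (4, 2, 1), (6, 0, 1), (4, 1, 2), (4, 3, 0), (6, 1, 0), (5, 0, 2), (5, 2, 0),
      (7, 0, 0)}
  | 13 =>
    {(4, 2, 1), (2, 4, 1), (4, 1, 2), (2, 1, 4), (1, 4, 2), (5, 0, 2), (1, 2, 4), (5, 2, 0),
      (3, 0, 4), (3, 4, 0)}
  | 14 =>
    {(4, 2, 1), (2, 4, 1), (6, 0, 1), (4, 1, 2), (2, 1, 4), (6, 1, 0), (1, 4, 2), (5, 0, 2),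
      (1, 2, 4), (5, 2, 0), (3, 0, 4), (3, 4, 0)}
  | 15 =>
    {(4, 2, 1), (2, 4, 1), (6, 0, 1), (4, 1, 2), (2, 1, 4), (6, 1, 0), (1, 4, 2), (5, 0, 2),
      (1, 2, 4), (5, 2, 0), (3, 0, 4), (3, 4, 0), (7, 0, 0)}
  | 16 =>
    {(0, 4, 3), (4, 0, 3), (0, 6, 1), (4, 2, 1), (2, 4, 1), (6, 0, 1), (0, 5, 2), (4, 1, 2),
      (2, 5, 0), (6, 1, 0), (1, 4, 2), (5, 0, 2), (1, 6, 0), (5, 2, 0)}
  | 17 =>
    {(4, 2, 1), (2, 4, 1), (6, 0, 1), (0, 5, 2), (4, 1, 2), (0, 3, 4), (4, 3, 0), (2, 1, 4),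
      (2, 5, 0), (6, 1, 0), (1, 4, 2), (5, 0, 2), (1, 2, 4), (5, 2, 0), (3, 0, 4), (3, 4, 0)}
  | _ => {(0, 0, 7)}


theorem small_sub : ∀ k ∈ ({6, 9, 10, 11, 12, 13, 14, 15, 16, 17} : Finset ℕ),
    small k ⊆ pw 3 := by
  decide +kernel

theorem small_vx : ∀ k ∈ ({6, 9, 10, 11, 12, 13, 14, 15, 16, 17} : Finset ℕ),
    vx (small k) ≤ k ∧ k - 3 ≤ (small k).card := by
  decide +kernel

theorem has_small {k : ℕ} (hk : k ∈ ({6, 9, 10, 11, 12, 13, 14, 15, 16, 17} : Finset ℕ)) :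
    Has k := by
  obtain ⟨h1, h2⟩ := small_vx k hk
  refine ⟨small k, (pw_facts 3).1.mono (small_sub k hk), ?_, h1, h2⟩
  rw [← Finset.card_pos]
  simp only [mem_insert, mem_singleton] at hk
  omega

theorem has_all {k : ℕ} (hk : k = 6 ∨ 9 ≤ k) : Has k := by
  induction k using Nat.strong_induction_on with
  | _ k ih =>
    by_cases h : k ≤ 17
    · apply has_small
      simp only [mem_insert, mem_singleton]
      omega
    · push Not at h
      have h1 := ih (k / 2) (by omega) (by omega)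
      have h2 := h1.double (by omega)
      rcases Nat.even_or_odd' k with ⟨c, hc | hc⟩
      · have e : k = 2 * (k / 2) := by omega
        rw [e]
        exact h2.1
      · have e : k = 2 * (k / 2) + 1 := by omega
        rw [e]
        exact h2.2

end BESO
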