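import Mathlib

set_option autoImplicit false

/-!
# MP_c82047_co: the theorem of Marcus-Tardos in all dimensions (Klazar-Marcus)
-/

namespace BESO

open Finset

/-- `H` contains the ordered pattern `p` -/
def PCont {ι : Type} {r : ℕ} (p : Fin r → ι → ℕ) (H : Finset (ι → ℕ)) : Prop :=
  ∃ q : Fin r → ι → ℕ, (∀ j, q j ∈ H) ∧ ∀ i, ∀ j j', p j i < p j' i → q j i < q j' i

theorem exists_rank {r : ℕ} (v : Fin r → ℕ) : ∃ ρ : Fin r → Fin r,
    ∀ j j', v j < v j' → ρ j < ρ j' := by
  have h : ∀ j : Fin r, (univ.filter fun j' => v j' < v j).card < r := by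
    intro j
    have h1 : (univ.filter fun j' => v j' < v j).card < (univ : Finset (Fin r)).card := by
      apply Finset.card_lt_card
      refine ⟨Finset.filter_subset _ _, fun h2 => ?_⟩
      have h3 := h2 (mem_univ j)
      simp at h3
    simpa using h1
  refine ⟨fun j => ⟨_, h j⟩, fun j j' hj => ?_⟩
  have key : (univ.filter fun i => v i < v j).card < (univ.filter fun i => v i < v j').card := by
    apply Finset.card_lt_card
    refine ⟨fun x hx => ?_, fun h2 => ?_⟩
    · rw [mem_filter] at hx ⊢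
      exact ⟨hx.1, hx.2.trans hj⟩
    · have h3 := h2 (mem_filter.2 ⟨mem_univ j, hj⟩)
      simp at h3
  exact key

/-- dimension one -/
theorem km_one {ι : Type} [Fintype ι] [DecidableEq ι] (hι : Fintype.card ι = 1) (r : ℕ)
    (p : Fin r → ι → ℕ) (H : Finset (ι → ℕ)) (h : ¬ PCont p H) : H.card ≤ r := by
  obtain ⟨i₀, hi₀⟩ := Fintype.card_eq_one_iff.1 hι
  by_contra hr
  push Not at hr
  apply h
  obtain ⟨ρ, hρ⟩ := exists_rank fun j => p j i₀
  have h1 : (H.image fun q => q i₀).card = H.card := by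
    apply Finset.card_image_of_injective
    intro q q' hq
    funext i
    rw [hi₀ i]
    exact hq
  have h2 : r ≤ (H.image fun q => q i₀).card := by
    rw [h1]
    exact hr.le
  obtain ⟨R, hR, hRc⟩ := Finset.exists_subset_card_eq h2
  have h3 : ∀ j : Fin r, ∃ q ∈ H, q i₀ = R.orderEmbOfFin hRc (ρ j) := by
    intro j
    have h4 := hR (R.orderEmbOfFin_mem hRc (ρ j))
    rw [mem_image] at h4
    exact h4
  choose q hq hqv using h3
  refine ⟨q, hq, fun i j j' hj => ?_⟩
  rw [hi₀ i] at hj ⊢
  rw [hqv, hqv]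
  exact (R.orderEmbOfFin hRc).lt_iff_lt.2 (hρ j j' hj)

section blocks

variable {ι : Type} [Fintype ι] [DecidableEq ι]

/-- the block of a point -/
def bl (s : ℕ) (q : ι → ℕ) : ι → ℕ := fun i => q i / s

/-- the points in a block -/
def fib (s : ℕ) (H : Finset (ι → ℕ)) (b : ι → ℕ) : Finset (ι → ℕ) := H.filter fun q => bl s q = b

/-- the residues of coordinate `i` in a block -/
def res (s : ℕ) (H : Finset (ι → ℕ)) (i : ι) (b : ι → ℕ) : Finset ℕ :=
  (fib s H b).image fun q => q i % s

omit [DecidableEq ι] in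
theorem res_sub {s : ℕ} (hs : 0 < s) (H : Finset (ι → ℕ)) (i : ι) (b : ι → ℕ) :
    res s H i b ⊆ range s := by
  intro x hx
  unfold res at hx
  rw [mem_image] at hx
  obtain ⟨q, -, rfl⟩ := hx
  rw [mem_range]
  exact Nat.mod_lt _ hs

theorem fib_card {s : ℕ} (H : Finset (ι → ℕ)) (b : ι → ℕ) :
    (fib s H b).card ≤ ∏ i, (res s H i b).card := by
  rw [← Fintype.card_piFinset]
  refine Finset.card_le_card_of_injOn (fun q i => q i % s) ?_ ?_
  · intro q hq
    rw [Finset.mem_coe, Fintype.mem_piFinset]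
    intro i
    exact mem_image_of_mem (fun q : ι → ℕ => q i % s) hq
  · intro q hq q' hq' h
    have h1 := (mem_filter.1 (Finset.mem_coe.1 hq)).2
    have h2 := (mem_filter.1 (Finset.mem_coe.1 hq')).2
    funext i
    have h3 : q i / s = q' i / s := congrFun (h1.trans h2.symm) i
    have h4 : q i % s = q' i % s := congrFun h i
    rw [← Nat.div_add_mod (q i) s, ← Nat.div_add_mod (q' i) s, h3, h4]

omit [DecidableEq ι] in
theorem blocks_avoid {s r : ℕ} {p : Fin r → ι → ℕ} {H : Finset (ι → ℕ)} (h : ¬ PCont p H) :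
    ¬ PCont p (H.image (bl s)) := by
  rintro ⟨q', hq', ho⟩
  apply h
  have h1 : ∀ j, ∃ q ∈ H, bl s q = q' j := fun j => mem_image.1 (hq' j)
  choose q hq hqb using h1
  refine ⟨q, hq, fun i j j' hj => ?_⟩
  have h2 := ho i j j' hj
  rw [← hqb j, ← hqb j'] at h2
  exact lt_of_not_ge fun h3 => absurd h2 (not_lt_of_ge (Nat.div_le_div_right h3))

/-- the number of blocks which are wide in direction `i` -/
theorem wide_card {s r m C d : ℕ} (hs : 0 < s) {p : Fin r → ι → ℕ} {H : Finset (ι → ℕ)}
    (h : ¬ PCont p H) (hm : ∀ q ∈ H, ∀ i, q i < s * m) (i : ι)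
    (hC : ∀ (n : ℕ) (H' : Finset ({i' // i' ≠ i} → ℕ)), (∀ q ∈ H', ∀ i', q i' < n) →
      ¬ PCont (fun j (i' : {i' // i' ≠ i}) => p j i'.1) H' → H'.card ≤ C * n ^ d) :
    ((H.image (bl s)).filter fun b => r ≤ (res s H i b).card).card ≤
      C * m ^ d * (m * 2 ^ s) := by
  classical
  obtain ⟨W, hW⟩ : ∃ W, W = (H.image (bl s)).filter fun b => r ≤ (res s H i b).card := ⟨_, rfl⟩
  rw [← hW]
  have h1 : ∀ b : ι → ℕ, ∃ R : Finset ℕ, b ∈ W → R ⊆ res s H i b ∧ R.card = r := by
    intro b
    by_cases hb : b ∈ W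
    · rw [hW, mem_filter] at hb
      obtain ⟨R, hR, hRc⟩ := Finset.exists_subset_card_eq hb.2
      exact ⟨R, fun _ => ⟨hR, hRc⟩⟩
    · exact ⟨∅, fun h' => absurd h' hb⟩
  choose R hR using h1
  have h2 : ∀ b ∈ W, (b i, R b) ∈ range m ×ˢ (range s).powerset := by
    intro b hb
    rw [mem_product, mem_range, mem_powerset]
    refine ⟨?_, (hR b hb).1.trans (res_sub hs H i b)⟩
    rw [hW, mem_filter, mem_image] at hb
    obtain ⟨⟨q, hq, rfl⟩, -⟩ := hb
    exact Nat.div_lt_of_lt_mul (hm q hq i)
  have h3 := Finset.card_le_mul_card_image_of_maps_to h2 (C * m ^ d) ?_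
  · rwa [card_product, card_range, card_powerset, card_range] at h3
  rintro ⟨v, Q⟩ -
  obtain ⟨U, hU⟩ : ∃ U, U = W.filter fun b => (b i, R b) = (v, Q) := ⟨_, rfl⟩
  rw [← hU]
  have hUm : ∀ b ∈ U, b ∈ W ∧ b i = v ∧ R b = Q := by
    intro b hb
    rw [hU, mem_filter, Prod.mk.injEq] at hb
    exact ⟨hb.1, hb.2.1, hb.2.2⟩
  have h4 : (U.image fun b (i' : {i' // i' ≠ i}) => b i'.1).card = U.card := by
    apply Finset.card_image_of_injOn
    intro b hb b' hb' e
    funext i'
    by_cases hi : i' = i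
    · rw [hi, (hUm b hb).2.1, (hUm b' hb').2.1]
    · exact congrFun e ⟨i', hi⟩
  rw [← h4]
  apply hC m
  · intro q hq i'
    rw [mem_image] at hq
    obtain ⟨b, hb, rfl⟩ := hq
    have h5 := (hUm b hb).1
    rw [hW, mem_filter, mem_image] at h5
    obtain ⟨⟨q, hq, rfl⟩, -⟩ := h5
    exact Nat.div_lt_of_lt_mul (hm q hq i'.1)
  · rintro ⟨q', hq', ho⟩
    apply h
    obtain ⟨ρ, hρ⟩ := exists_rank fun j => p j i
    have h5 : ∀ j, ∃ b ∈ U, (fun i' : {i' // i' ≠ i} => b i'.1) = q' j :=
      fun j => mem_image.1 (hq' j)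
    choose b hb hbq using h5
    by_cases hr : r = 0
    · subst hr
      exact ⟨fun j => j.elim0, fun j => j.elim0, fun _ j => j.elim0⟩
    · have hQ : Q.card = r := by
        rw [← (hUm _ (hb ⟨0, by omega⟩)).2.2]
        exact (hR _ (hUm _ (hb ⟨0, by omega⟩)).1).2
      have h6 : ∀ j, ∃ q ∈ fib s H (b j), q i % s = Q.orderEmbOfFin hQ (ρ j) := by
        intro j
        have h7 := Q.orderEmbOfFin_mem hQ (ρ j)
        have h8 := (hR _ (hUm _ (hb j)).1).1
        rw [(hUm _ (hb j)).2.2] at h8
        have h9 := h8 h7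
        unfold res at h9
        rw [mem_image] at h9
        exact h9
      choose q hq hqv using h6
      have hqH : ∀ j, q j ∈ H ∧ bl s (q j) = b j := by
        intro j
        have := hq j
        unfold fib at this
        rwa [mem_filter] at this
      refine ⟨q, fun j => (hqH j).1, fun i' j j' hj => ?_⟩
      by_cases hi : i' = i
      · subst hi
        have e1 : q j i' / s = v := by
          have := congrFun (hqH j).2 i'
          rw [(hUm _ (hb j)).2.1] at this
          exact this
        have e2 : q j' i' / s = v := by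
          have := congrFun (hqH j').2 i'
          rw [(hUm _ (hb j')).2.1] at this
          exact this
        have e3 : q j i' % s < q j' i' % s := by
          rw [hqv, hqv]
          exact (Q.orderEmbOfFin hQ).lt_iff_lt.2 (hρ j j' hj)
        rw [← Nat.div_add_mod (q j i') s, ← Nat.div_add_mod (q j' i') s, e1, e2]
        omega
      · have h7 := ho ⟨i', hi⟩ j j' hj
        rw [← hbq j, ← hbq j'] at h7
        simp only at h7
        have e1 : q j i' / s = b j i' := congrFun (hqH j).2 i'
        have e2 : q j' i' / s = b j' i' := congrFun (hqH j').2 i'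
        rw [← e1, ← e2] at h7
        exact lt_of_not_ge fun h3 => absurd h7 (not_lt_of_ge (Nat.div_le_div_right h3))

/-- the recursion -/
theorem km_rec {s r m C d : ℕ} (hs : 0 < s) {p : Fin r → ι → ℕ} {H : Finset (ι → ℕ)}
    (h : ¬ PCont p H) (hm : ∀ q ∈ H, ∀ i, q i < s * m)
    (hC : ∀ (i : ι) (n : ℕ) (H' : Finset ({i' // i' ≠ i} → ℕ)), (∀ q ∈ H', ∀ i', q i' < n) →
      ¬ PCont (fun j (i' : {i' // i' ≠ i}) => p j i'.1) H' → H'.card ≤ C * n ^ d) :
    H.card ≤ r ^ Fintype.card ι * (H.image (bl s)).card +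
      Fintype.card ι * (C * m ^ d * (m * 2 ^ s)) * s ^ Fintype.card ι := by
  classical
  have h1 : H.card = ∑ b ∈ H.image (bl s), (fib s H b).card :=
    Finset.card_eq_sum_card_image (bl s) H
  have h2 : ∀ b ∈ H.image (bl s), (fib s H b).card ≤ r ^ Fintype.card ι +
      ∑ i, if r ≤ (res s H i b).card then s ^ Fintype.card ι else 0 := by
    intro b _
    by_cases hw : ∃ i, r ≤ (res s H i b).card
    · obtain ⟨i, hi⟩ := hw
      have h3 : (fib s H b).card ≤ s ^ Fintype.card ι := by
        refine (fib_card H b).trans ?_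
        have h4 : ∏ i, (res s H i b).card ≤ ∏ _i : ι, s := by
          apply Finset.prod_le_prod' fun i _ => ?_
          have := Finset.card_le_card (res_sub hs H i b)
          rwa [card_range] at this
        rwa [Finset.prod_const, Finset.card_univ] at h4
      have h5 : (if r ≤ (res s H i b).card then s ^ Fintype.card ι else 0) ≤
          ∑ i, if r ≤ (res s H i b).card then s ^ Fintype.card ι else 0 :=
        Finset.single_le_sum (f := fun i => if r ≤ (res s H i b).card then
          s ^ Fintype.card ι else 0) (fun _ _ => Nat.zero_le _) (mem_univ i)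
      rw [if_pos hi] at h5
      omega
    · push Not at hw
      have h3 : (fib s H b).card ≤ r ^ Fintype.card ι := by
        refine (fib_card H b).trans ?_
        have h4 : ∏ i, (res s H i b).card ≤ ∏ _i : ι, r :=
          Finset.prod_le_prod' fun i _ => (hw i).le
        rwa [Finset.prod_const, Finset.card_univ] at h4
      omega
  rw [h1]
  refine (Finset.sum_le_sum h2).trans ?_
  rw [Finset.sum_add_distrib, Finset.sum_const, smul_eq_mul, Finset.sum_comm]
  have h3 : ∑ i, ∑ b ∈ H.image (bl s), (if r ≤ (res s H i b).card then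
      s ^ Fintype.card ι else 0) ≤ ∑ _i : ι, (C * m ^ d * (m * 2 ^ s)) * s ^ Fintype.card ι := by
    apply Finset.sum_le_sum
    intro i _
    rw [← Finset.sum_filter, Finset.sum_const, smul_eq_mul]
    exact Nat.mul_le_mul_right _ (wide_card hs h hm i (hC i))
  rw [Finset.sum_const, smul_eq_mul, Finset.card_univ] at h3
  rw [mul_comm (r ^ _)]
  calc _ ≤ (H.image (bl s)).card * r ^ Fintype.card ι +
        Fintype.card ι * ((C * m ^ d * (m * 2 ^ s)) * s ^ Fintype.card ι) :=
        Nat.add_le_add_left h3 _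
    _ = _ := by ring

end blocks

/-- Klazar-Marcus -/
theorem km (d : ℕ) : ∀ (ι : Type) [Fintype ι] [DecidableEq ι], Fintype.card ι = d + 1 →
    ∀ (r : ℕ) (p : Fin r → ι → ℕ), ∃ C : ℕ, ∀ (n : ℕ) (H : Finset (ι → ℕ)),
      (∀ q ∈ H, ∀ i, q i < n) → ¬ PCont p H → H.card ≤ C * n ^ d := by
  induction d with
  | zero =>
    intro ι _ _ hι r p
    refine ⟨r, fun n H _ h => ?_⟩
    rw [pow_zero, mul_one]
    exact km_one hι r p H h
  | succ d ih =>
    intro ι _ _ hι r p
    by_cases hr : r = 0
    · subst hr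
      exact ⟨0, fun n H _ h => absurd ⟨fun j => j.elim0, fun j => j.elim0, fun _ j => j.elim0⟩ h⟩
    have hr1 : 1 ≤ r := Nat.pos_of_ne_zero hr
    have h1 : ∀ i : ι, ∃ C : ℕ, ∀ (n : ℕ) (H' : Finset ({i' // i' ≠ i} → ℕ)),
        (∀ q ∈ H', ∀ i', q i' < n) →
          ¬ PCont (fun j (i' : {i' // i' ≠ i}) => p j i'.1) H' → H'.card ≤ C * n ^ d := by
      intro i
      refine ih {i' // i' ≠ i} ?_ r fun j i' => p j i'.1
      rw [Fintype.card_subtype_compl, hι, Fintype.card_subtype_eq]
      rfl
    choose Ci hCi using h1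
    obtain ⟨C', hC'⟩ : ∃ C', C' = ∑ i, Ci i := ⟨_, rfl⟩
    have hC1 : ∀ (i : ι) (n : ℕ) (H' : Finset ({i' // i' ≠ i} → ℕ)),
        (∀ q ∈ H', ∀ i', q i' < n) →
          ¬ PCont (fun j (i' : {i' // i' ≠ i}) => p j i'.1) H' → H'.card ≤ C' * n ^ d := by
      intro i n H' ha hb
      refine (hCi i n H' ha hb).trans (Nat.mul_le_mul_right _ ?_)
      rw [hC']
      exact Finset.single_le_sum (fun _ _ => Nat.zero_le _) (mem_univ i)
    obtain ⟨P, hP⟩ : ∃ P, P = r ^ Fintype.card ι := ⟨_, rfl⟩
    have hP1 : 1 ≤ P := by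
      rw [hP]
      exact Nat.one_le_pow _ _ hr1
    obtain ⟨s, hs⟩ : ∃ s, s = 4 * P := ⟨_, rfl⟩
    have hs4 : 4 ≤ s := by omega
    obtain ⟨E, hE⟩ : ∃ E, E = Fintype.card ι * (C' * 2 ^ s) * s ^ Fintype.card ι := ⟨_, rfl⟩
    refine ⟨s + E, fun n => ?_⟩
    induction n using Nat.strong_induction_on with
    | _ n ihn =>
      intro H hH hav
      by_cases hn : n < s
      · have h2 : H.card ≤ n ^ (d + 1 + 1) := by
          have h3 : H ⊆ Fintype.piFinset fun _ => range n := by
            intro q hq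
            rw [Fintype.mem_piFinset]
            exact fun i => mem_range.2 (hH q hq i)
          have h4 := Finset.card_le_card h3
          rwa [Fintype.card_piFinset, Finset.prod_const, card_range, Finset.card_univ, hι] at h4
        refine h2.trans ?_
        rw [pow_succ n (d + 1), mul_comm]
        exact Nat.mul_le_mul_right _ (by omega)
      · push Not at hn
        obtain ⟨m, hm⟩ : ∃ m, m = n / s + 1 := ⟨_, rfl⟩
        have hs0 : 0 < s := by omega
        have hnm : n < s * m := by
          rw [hm]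
          exact Nat.lt_mul_div_succ n hs0
        have hsm : s * m ≤ 2 * n := by
          rw [hm, mul_add, mul_one]
          have := Nat.mul_div_le n s
          omega
        have hmn : m < n := by
          have : 4 * m ≤ s * m := Nat.mul_le_mul_right _ hs4
          omega
        have h2 := km_rec hs0 hav (fun q hq i => (hH q hq i).trans hnm) hC1
        have h3 := ihn m hmn (H.image (bl s)) (by
          intro b hb i
          rw [mem_image] at hb
          obtain ⟨q, hq, rfl⟩ := hb
          exact Nat.div_lt_of_lt_mul ((hH q hq i).trans hnm)) (blocks_avoid hav)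
        rw [← hP] at h2
        have h4 : H.card ≤ (P * (s + E) + E) * m ^ (d + 1) := by
          calc H.card ≤ P * ((s + E) * m ^ (d + 1)) +
                Fintype.card ι * (C' * m ^ d * (m * 2 ^ s)) * s ^ Fintype.card ι :=
                h2.trans (Nat.add_le_add_right (Nat.mul_le_mul_left _ h3) _)
            _ = (P * (s + E) + E) * m ^ (d + 1) := by
                rw [hE]
                ring
        have h5 : P * (s + E) + E ≤ 2 * P * (s + E) := by
          have : E ≤ P * (s + E) := by nlinarith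
          linarith
        have h6 : 2 ^ (d + 1) * (2 * P) ≤ s ^ (d + 1) := by
          rw [hs]
          have e : 4 * P = 2 * (2 * P) := by ring
          rw [e, mul_pow]
          exact Nat.mul_le_mul_left _ (Nat.le_self_pow (Nat.succ_ne_zero d) _)
        have h7 : s ^ (d + 1) * m ^ (d + 1) ≤ 2 ^ (d + 1) * n ^ (d + 1) := by
          rw [← mul_pow, ← mul_pow]
          exact Nat.pow_le_pow_left hsm _
        have h8 : 2 ^ (d + 1) * H.card ≤ 2 ^ (d + 1) * ((s + E) * n ^ (d + 1)) := by
          calc 2 ^ (d + 1) * H.card ≤ 2 ^ (d + 1) * ((2 * P * (s + E)) * m ^ (d + 1)) :=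
                Nat.mul_le_mul_left _ (h4.trans (Nat.mul_le_mul_right _ h5))
            _ = (2 ^ (d + 1) * (2 * P)) * ((s + E) * m ^ (d + 1)) := by ring
            _ ≤ s ^ (d + 1) * ((s + E) * m ^ (d + 1)) := Nat.mul_le_mul_right _ h6
            _ = (s + E) * (s ^ (d + 1) * m ^ (d + 1)) := by ring
            _ ≤ (s + E) * (2 ^ (d + 1) * n ^ (d + 1)) := Nat.mul_le_mul_left _ h7
            _ = 2 ^ (d + 1) * ((s + E) * n ^ (d + 1)) := by ring
        exact Nat.le_of_mul_le_mul_left h8 (by positivity)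

end BESO
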