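import Mathlib
import Pool.Agent.Lib.MP_c82047_co_OB.Defs
import Pool.Agent.Lib.MP_c82047_co_OB.KM

set_option autoImplicit false

/-!
# MP_c82047_co: systems which avoid an ordered pattern, and Lipschitz graphs, are thin
-/

namespace BESO

open Finset

/-- `H` contains the ordered pattern `(u, v, w)` -/
def PT {r : ℕ} (u v w : Fin r → ℕ) (H : Finset Tr) : Prop :=
  ∃ q : Fin r → Tr, (∀ j, q j ∈ H) ∧ ∀ j j', (u j < u j' → (q j).1 < (q j').1) ∧
    (v j < v j' → (q j).2.1 < (q j').2.1) ∧ (w j < w j' → (q j).2.2 < (q j').2.2)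

/-- the coordinates as a function -/
def fn (t : Tr) : Fin 3 → ℕ := ![t.1, t.2.1, t.2.2]

theorem fn_inj : Function.Injective fn := by
  intro t t' h
  have h0 := congrFun h 0
  have h1 := congrFun h 1
  have h2 := congrFun h 2
  simp only [fn, Matrix.cons_val_zero, Matrix.cons_val_one, Matrix.cons_val] at h0 h1 h2
  exact Prod.ext h0 (Prod.ext h1 h2)

theorem thin_of_avoid {r : ℕ} (u v w : Fin r → ℕ) : ∃ K : ℕ, ∀ H : Finset Tr,
    ¬ PT u v w H → Thin K H := by
  obtain ⟨C, hC⟩ := km 2 (Fin 3) (by simp) r fun j => ![u j, v j, w j]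
  refine ⟨C, fun H hH M m q hM => ?_⟩
  obtain ⟨S, hS⟩ : ∃ S, S = (H.filter (InBox q (M * m))).image (blk M q) := ⟨_, rfl⟩
  rw [← hS]
  have h1 : ∀ b ∈ S, ∃ t ∈ H, InBox q (M * m) t ∧ blk M q t = b := by
    intro b hb
    rw [hS, mem_image] at hb
    obtain ⟨t, ht, rfl⟩ := hb
    rw [mem_filter] at ht
    exact ⟨t, ht.1, ht.2, rfl⟩
  have h2 : (S.image fn).card = S.card := Finset.card_image_of_injective _ fn_inj
  rw [← h2]
  apply hC m
  · intro f hf i
    rw [mem_image] at hf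
    obtain ⟨b, hb, rfl⟩ := hf
    obtain ⟨t, -, ht, rfl⟩ := h1 b hb
    simp only [InBox] at ht
    have e1 : (t.1 - q.1) / M < m := Nat.div_lt_of_lt_mul (by omega)
    have e2 : (t.2.1 - q.2.1) / M < m := Nat.div_lt_of_lt_mul (by omega)
    have e3 : (t.2.2 - q.2.2) / M < m := Nat.div_lt_of_lt_mul (by omega)
    fin_cases i
    · exact e1
    · exact e2
    · exact e3
  · rintro ⟨g, hg, ho⟩
    apply hH
    have h3 : ∀ j, ∃ t ∈ H, InBox q (M * m) t ∧ fn (blk M q t) = g j := by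
      intro j
      obtain ⟨b, hb, hbg⟩ := mem_image.1 (hg j)
      obtain ⟨t, ht, ht', rfl⟩ := h1 b hb
      exact ⟨t, ht, ht', hbg⟩
    choose t ht hbox htg using h3
    have key : ∀ a b c : ℕ, (a - c) / M < (b - c) / M → a < b := by
      intro a b c h
      by_contra hab
      push Not at hab
      exact absurd h (not_lt_of_ge (Nat.div_le_div_right (Nat.sub_le_sub_right hab c)))
    refine ⟨t, ht, fun j j' => ⟨fun h => ?_, fun h => ?_, fun h => ?_⟩⟩
    · have h4 := ho 0 j j' h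
      rw [← htg j, ← htg j'] at h4
      exact key _ _ _ h4
    · have h4 := ho 1 j j' h
      rw [← htg j, ← htg j'] at h4
      exact key _ _ _ h4
    · have h4 := ho 2 j j' h
      rw [← htg j, ← htg j'] at h4
      exact key _ _ _ h4

/-- a graph over two coordinates which is Lipschitz is thin -/
theorem thin_of_lip {L : ℕ} {H : Finset Tr} (h : ∀ t ∈ H, ∀ t' ∈ H,
    |(t.2.2 : ℤ) - t'.2.2| ≤ L * (|(t.1 : ℤ) - t'.1| + |(t.2.1 : ℤ) - t'.2.1|)) :
    Thin (2 * L + 2) H := by
  classical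
  intro M m q hM
  obtain ⟨S, hS⟩ : ∃ S, S = (H.filter (InBox q (M * m))).image (blk M q) := ⟨_, rfl⟩
  rw [← hS]
  have h1 : ∀ b ∈ S, ∃ t ∈ H, InBox q (M * m) t ∧ blk M q t = b := by
    intro b hb
    rw [hS, mem_image] at hb
    obtain ⟨t, ht, rfl⟩ := hb
    rw [mem_filter] at ht
    exact ⟨t, ht.1, ht.2, rfl⟩
  have h2 : ∀ b ∈ S, (b.1, b.2.1) ∈ range m ×ˢ range m := by
    intro b hb
    obtain ⟨t, -, ht, rfl⟩ := h1 b hb
    simp only [InBox] at ht
    rw [mem_product, mem_range, mem_range]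
    exact ⟨Nat.div_lt_of_lt_mul (by omega), Nat.div_lt_of_lt_mul (by omega)⟩
  have h3 := Finset.card_le_mul_card_image_of_maps_to h2 (2 * L + 2) ?_
  · rwa [card_product, card_range, ← sq] at h3
  rintro ⟨X, Y⟩ -
  obtain ⟨U, hU⟩ : ∃ U, U = S.filter fun b => (b.1, b.2.1) = (X, Y) := ⟨_, rfl⟩
  rw [← hU]
  rcases U.eq_empty_or_nonempty with h4 | h4
  · rw [h4]
    simp
  obtain ⟨b₀, hb₀, hmin⟩ := Finset.exists_min_image U (fun b => b.2.2) h4
  have h5 : U.card ≤ (Finset.Icc b₀.2.2 (b₀.2.2 + (2 * L + 1))).card := by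
    refine Finset.card_le_card_of_injOn (fun b => b.2.2) ?_ ?_
    · intro b hb
      rw [Finset.mem_coe] at hb
      rw [Finset.mem_coe, Finset.mem_Icc]
      refine ⟨hmin b hb, ?_⟩
      have hb' := hb
      rw [hU, mem_filter, Prod.mk.injEq] at hb hb₀
      obtain ⟨t, ht, htb, ht1⟩ := h1 b hb.1
      obtain ⟨t₀, ht₀, htb₀, ht2⟩ := h1 b₀ hb₀.1
      have hl := h t ht t₀ ht₀
      simp only [InBox] at htb htb₀
      have key : ∀ a a' c X : ℕ, c ≤ a → c ≤ a' → (a - c) / M = X → (a' - c) / M = X →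
          |(a : ℤ) - a'| ≤ M := by
        intro a a' c X hc hc' e e'
        have g1 := Nat.div_add_mod (a - c) M
        have g2 := Nat.div_add_mod (a' - c) M
        have g3 := Nat.mod_lt (a - c) hM
        have g4 := Nat.mod_lt (a' - c) hM
        rw [e] at g1
        rw [e'] at g2
        rw [abs_le]
        constructor <;> omega
      have e1 : (t.1 - q.1) / M = X := by
        rw [← hb.2.1, ← ht1]
        rfl
      have e1' : (t₀.1 - q.1) / M = X := by
        rw [← hb₀.2.1, ← ht2]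
        rfl
      have e2 : (t.2.1 - q.2.1) / M = Y := by
        rw [← hb.2.2, ← ht1]
        rfl
      have e2' : (t₀.2.1 - q.2.1) / M = Y := by
        rw [← hb₀.2.2, ← ht2]
        rfl
      have k1 := key _ _ _ _ htb.1.1 htb₀.1.1 e1 e1'
      have k2 := key _ _ _ _ htb.2.1.1 htb₀.2.1.1 e2 e2'
      have k3 : |(t.2.2 : ℤ) - t₀.2.2| ≤ L * (2 * M) := by
        refine hl.trans (mul_le_mul_of_nonneg_left (by linarith) (by positivity))
      have k4 : t.2.2 ≤ t₀.2.2 + 2 * L * M := by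
        have := (abs_le.1 k3).2
        have k5 : (t.2.2 : ℤ) ≤ t₀.2.2 + 2 * L * M := by linarith
        exact_mod_cast k5
      rw [← ht1, ← ht2]
      simp only [blk]
      have k6 : t.2.2 - q.2.2 ≤ (t₀.2.2 - q.2.2) + M * (2 * L) := by
        have : 2 * L * M = M * (2 * L) := by ring
        omega
      have k7 := Nat.div_le_div_right (c := M) k6
      rw [Nat.add_mul_div_left _ _ hM] at k7
      omega
    · intro b hb b' hb' e
      rw [Finset.mem_coe, hU, mem_filter, Prod.mk.injEq] at hb hb'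
      exact Prod.ext (hb.2.1.trans hb'.2.1.symm) (Prod.ext (hb.2.2.trans hb'.2.2.symm) e)
  refine h5.trans (le_of_eq ?_)
  rw [Nat.card_Icc]
  omega

theorem Thin.mono {K : ℕ} {H H' : Finset Tr} (h : Thin K H) (hs : H' ⊆ H) : Thin K H' := by
  intro M m q hM
  exact (Finset.card_le_card (Finset.image_subset_image (Finset.filter_subset_filter _ hs))).trans
    (h M m q hM)

end BESO
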