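import Mathlib
import Pool.Agent.Lib.MP_c82047_co_OB.Pat
import Pool.Agent.Lib.MP_c82047_co_OB.Num

set_option autoImplicit false

/-!
# MP_c82047_co: 3-graphs
-/

namespace BESO

open Finset

/-- a large linear subsystem of a system with bounded codegrees -/
theorem exists_lin (H : Finset Tr) (c : ℕ)
    (h1 : ∀ t ∈ H, (H.filter fun t' => t'.1 = t.1 ∧ t'.2.1 = t.2.1).card ≤ c)
    (h2 : ∀ t ∈ H, (H.filter fun t' => t'.1 = t.1 ∧ t'.2.2 = t.2.2).card ≤ c)
    (h3 : ∀ t ∈ H, (H.filter fun t' => t'.2.1 = t.2.1 ∧ t'.2.2 = t.2.2).card ≤ c) :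
    ∃ H' : Finset Tr, H' ⊆ H ∧ Lin H' ∧ H.card ≤ 3 * c * H'.card := by
  classical
  have hne : (H.powerset.filter fun H' => Lin H').Nonempty :=
    ⟨∅, mem_filter.2 ⟨mem_powerset.2 (empty_subset _),
      ⟨fun t ht => absurd ht (notMem_empty t), fun t ht => absurd ht (notMem_empty t),
        fun t ht => absurd ht (notMem_empty t)⟩⟩⟩
  obtain ⟨H', hH', hmax⟩ := Finset.exists_max_image _ Finset.card hne
  rw [mem_filter, mem_powerset] at hH'
  obtain ⟨hsub, hlin⟩ := hH'
  refine ⟨H', hsub, hlin, ?_⟩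
  have hcov : H ⊆ H'.biUnion fun t => (H.filter fun t' => t'.1 = t.1 ∧ t'.2.1 = t.2.1) ∪
      ((H.filter fun t' => t'.1 = t.1 ∧ t'.2.2 = t.2.2) ∪
        (H.filter fun t' => t'.2.1 = t.2.1 ∧ t'.2.2 = t.2.2)) := by
    intro t ht
    rw [mem_biUnion]
    by_cases hin : t ∈ H'
    · exact ⟨t, hin, mem_union_left _ (mem_filter.2 ⟨ht, rfl, rfl⟩)⟩
    · by_contra hcon
      push Not at hcon
      have k : ∀ t' ∈ H', ¬ (t.1 = t'.1 ∧ t.2.1 = t'.2.1) ∧ ¬ (t.1 = t'.1 ∧ t.2.2 = t'.2.2) ∧
          ¬ (t.2.1 = t'.2.1 ∧ t.2.2 = t'.2.2) := by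
        intro t' ht'
        have := hcon t' ht'
        simp only [mem_union, mem_filter, not_or, not_and] at this
        refine ⟨fun h => this.1 ht h.1 h.2, fun h => this.2.1 ht h.1 h.2,
          fun h => this.2.2 ht h.1 h.2⟩
      have hl : Lin (insert t H') := by
        refine ⟨?_, ?_, ?_⟩
        · intro a ha b hb e1 e2
          rw [mem_insert] at ha hb
          rcases ha with rfl | ha <;> rcases hb with rfl | hb
          · rfl
          · exact absurd ⟨e1, e2⟩ (k b hb).1
          · exact absurd ⟨e1.symm, e2.symm⟩ (k a ha).1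
          · exact hlin.xy a ha b hb e1 e2
        · intro a ha b hb e1 e2
          rw [mem_insert] at ha hb
          rcases ha with rfl | ha <;> rcases hb with rfl | hb
          · rfl
          · exact absurd ⟨e1, e2⟩ (k b hb).2.1
          · exact absurd ⟨e1.symm, e2.symm⟩ (k a ha).2.1
          · exact hlin.xz a ha b hb e1 e2
        · intro a ha b hb e1 e2
          rw [mem_insert] at ha hb
          rcases ha with rfl | ha <;> rcases hb with rfl | hb
          · rfl
          · exact absurd ⟨e1, e2⟩ (k b hb).2.2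
          · exact absurd ⟨e1.symm, e2.symm⟩ (k a ha).2.2
          · exact hlin.yz a ha b hb e1 e2
      have := hmax (insert t H') (mem_filter.2 ⟨mem_powerset.2 (insert_subset ht hsub), hl⟩)
      rw [card_insert_of_notMem hin] at this
      omega
  have h4 := (Finset.card_le_card hcov).trans Finset.card_biUnion_le
  refine h4.trans ?_
  have h5 : ∀ t ∈ H', ((H.filter fun t' => t'.1 = t.1 ∧ t'.2.1 = t.2.1) ∪
      ((H.filter fun t' => t'.1 = t.1 ∧ t'.2.2 = t.2.2) ∪
        (H.filter fun t' => t'.2.1 = t.2.1 ∧ t'.2.2 = t.2.2))).card ≤ 3 * c := by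
    intro t ht
    have g1 := Finset.card_union_le (H.filter fun t' => t'.1 = t.1 ∧ t'.2.1 = t.2.1)
      ((H.filter fun t' => t'.1 = t.1 ∧ t'.2.2 = t.2.2) ∪
        (H.filter fun t' => t'.2.1 = t.2.1 ∧ t'.2.2 = t.2.2))
    have g2 := Finset.card_union_le (H.filter fun t' => t'.1 = t.1 ∧ t'.2.2 = t.2.2)
      (H.filter fun t' => t'.2.1 = t.2.1 ∧ t'.2.2 = t.2.2)
    have g3 := h1 t (hsub ht)
    have g4 := h2 t (hsub ht)
    have g5 := h3 t (hsub ht)
    omega
  refine (Finset.sum_le_sum h5).trans (le_of_eq ?_)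
  rw [Finset.sum_const, smul_eq_mul, mul_comm]

/-- every large dense thin system with bounded codegrees contains `F` -/
theorem Cont.bounded {F : Finset Tr} (hF : Cont F) (K c : ℕ) (hc : 1 ≤ c) {ε : ℝ} (hε : 0 < ε) :
    ∃ n₀ : ℕ, ∀ n : ℕ, n₀ ≤ n → ∀ H : Finset Tr, (∀ t ∈ H, InBox (0, 0, 0) n t) → Thin K H →
      ε * (n : ℝ) ^ 2 ≤ (H.card : ℝ) →
      (∀ t ∈ H, (H.filter fun t' => t'.1 = t.1 ∧ t'.2.1 = t.2.1).card ≤ c) →
      (∀ t ∈ H, (H.filter fun t' => t'.1 = t.1 ∧ t'.2.2 = t.2.2).card ≤ c) →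
      (∀ t ∈ H, (H.filter fun t' => t'.2.1 = t.2.1 ∧ t'.2.2 = t.2.2).card ≤ c) → Cop F H := by
  have hc' : (0 : ℝ) < c := by exact_mod_cast hc
  obtain ⟨n₀, hn₀⟩ := hF K (ε / (3 * c)) (by positivity)
  refine ⟨n₀, fun n hn H hH hT hcard h1 h2 h3 => ?_⟩
  obtain ⟨H', hs, hL, hl⟩ := exists_lin H c h1 h2 h3
  have h4 : (H.card : ℝ) ≤ 3 * c * H'.card := by exact_mod_cast hl
  obtain ⟨α, β, γ, h5, h6⟩ := hn₀ n hn H' (fun t ht => hH t (hs ht)) hL (hT.mono hs) (by
    rw [div_mul_eq_mul_div, div_le_iff₀ (by positivity)]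
    linarith)
  exact ⟨α, β, γ, fun t ht => hs (h5 t ht), h6⟩

section graphs

variable {V : Type} [Fintype V] [DecidableEq V]

/-- the rank of a vertex -/
noncomputable def rk (f : V → ℝ) (v : V) : ℕ := (univ.filter fun u => f u < f v).card

omit [DecidableEq V] in
theorem rk_lt (f : V → ℝ) (v : V) : rk f v < Fintype.card V := by
  have h1 : (univ.filter fun u => f u < f v).card < (univ : Finset V).card := by
    apply Finset.card_lt_card
    refine ⟨Finset.filter_subset _ _, fun h2 => ?_⟩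
    have h3 := h2 (mem_univ v)
    simp at h3
  rw [Finset.card_univ] at h1
  unfold rk
  exact h1

omit [DecidableEq V] in
theorem rk_mono {f : V → ℝ} {u v : V} (h : f u < f v) : rk f u < rk f v := by
  have h1 : (univ.filter fun w => f w < f u).card < (univ.filter fun w => f w < f v).card := by
    apply Finset.card_lt_card
    refine ⟨fun x hx => ?_, fun h2 => ?_⟩
    · rw [mem_filter] at hx ⊢
      exact ⟨hx.1, hx.2.trans h⟩
    · have h3 := h2 (mem_filter.2 ⟨mem_univ u, h⟩)
      simp at h3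
  unfold rk
  exact h1

omit [DecidableEq V] in
theorem rk_lt_iff {f : V → ℝ} {u v : V} : rk f u < rk f v ↔ f u < f v := by
  constructor
  · intro h
    by_contra hn
    push Not at hn
    rcases hn.lt_or_eq with h1 | h1
    · exact absurd (rk_mono h1) (not_lt_of_ge h.le)
    · have : rk f u = rk f v := by
        unfold rk
        rw [h1]
      omega
  · exact rk_mono

omit [DecidableEq V] in
theorem rk_inj {f : V → ℝ} (hf : Function.Injective f) : Function.Injective (rk f) := by
  intro u v h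
  apply hf
  rcases lt_trichotomy (f u) (f v) with h1 | h1 | h1
  · exact absurd h (rk_mono h1).ne
  · exact h1
  · exact absurd h (rk_mono h1).ne'

/-- the points of a pattern, as vertices -/
theorem span_of_cop {E : Finset (Finset V)} {x y z : Finset V → V}
    (hE : ∀ e ∈ E, e = {x e, y e, z e}) {f g h : V → ℝ} (hf : Function.Injective f)
    (hg : Function.Injective g) (hh : Function.Injective h) {F : Finset Tr}
    (hc : Cop F (E.image fun e => (rk f (x e), rk g (y e), rk h (z e)))) {k s : ℕ}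
    (hk : vx F ≤ k) (hs : s ≤ F.card) (hkV : k ≤ Fintype.card V) :
    ∃ S : Finset V, S.card = k ∧ s ≤ (E.filter fun e => e ⊆ S).card := by
  classical
  obtain ⟨α, β, γ, h1, h2⟩ := hc
  have h3 : ∀ t ∈ F, ∃ e ∈ E, (rk f (x e), rk g (y e), rk h (z e)) = (α t.1, β t.2.1, γ t.2.2) :=
    fun t ht => mem_image.1 (h1 t ht)
  choose! e he hel using h3
  have hel' : ∀ t ∈ F, rk f (x (e t)) = α t.1 ∧ rk g (y (e t)) = β t.2.1 ∧
      rk h (z (e t)) = γ t.2.2 := by
    intro t ht
    have := hel t ht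
    simpa only [Prod.mk.injEq] using this
  obtain ⟨S₀, hS₀⟩ : ∃ S₀, S₀ = (F.image fun t => x (e t)) ∪ ((F.image fun t => y (e t)) ∪
      F.image fun t => z (e t)) := ⟨_, rfl⟩
  have hcx : (F.image fun t => x (e t)).card ≤ (F.image fun t => t.1).card := by
    refine Finset.card_le_card_of_surjOn (fun i => if hi : ∃ t ∈ F, t.1 = i then
      x (e hi.choose) else x (e (0, 0, 0))) ?_
    intro v hv
    rw [Finset.mem_coe, mem_image] at hv
    obtain ⟨t, ht, rfl⟩ := hv
    refine ⟨t.1, mem_image_of_mem (fun t : Tr => t.1) ht, ?_⟩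
    have hi : ∃ t' ∈ F, t'.1 = t.1 := ⟨t, ht, rfl⟩
    simp only
    rw [dif_pos hi]
    apply rk_inj hf
    rw [(hel' _ hi.choose_spec.1).1, (hel' t ht).1, hi.choose_spec.2]
  have hcy : (F.image fun t => y (e t)).card ≤ (F.image fun t => t.2.1).card := by
    refine Finset.card_le_card_of_surjOn (fun i => if hi : ∃ t ∈ F, t.2.1 = i then
      y (e hi.choose) else y (e (0, 0, 0))) ?_
    intro v hv
    rw [Finset.mem_coe, mem_image] at hv
    obtain ⟨t, ht, rfl⟩ := hv
    refine ⟨t.2.1, mem_image_of_mem (fun t : Tr => t.2.1) ht, ?_⟩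
    have hi : ∃ t' ∈ F, t'.2.1 = t.2.1 := ⟨t, ht, rfl⟩
    simp only
    rw [dif_pos hi]
    apply rk_inj hg
    rw [(hel' _ hi.choose_spec.1).2.1, (hel' t ht).2.1, hi.choose_spec.2]
  have hcz : (F.image fun t => z (e t)).card ≤ (F.image fun t => t.2.2).card := by
    refine Finset.card_le_card_of_surjOn (fun i => if hi : ∃ t ∈ F, t.2.2 = i then
      z (e hi.choose) else z (e (0, 0, 0))) ?_
    intro v hv
    rw [Finset.mem_coe, mem_image] at hv
    obtain ⟨t, ht, rfl⟩ := hv
    refine ⟨t.2.2, mem_image_of_mem (fun t : Tr => t.2.2) ht, ?_⟩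
    have hi : ∃ t' ∈ F, t'.2.2 = t.2.2 := ⟨t, ht, rfl⟩
    simp only
    rw [dif_pos hi]
    apply rk_inj hh
    rw [(hel' _ hi.choose_spec.1).2.2, (hel' t ht).2.2, hi.choose_spec.2]
  have hcard : S₀.card ≤ k := by
    have g1 := Finset.card_union_le (F.image fun t => x (e t))
      ((F.image fun t => y (e t)) ∪ F.image fun t => z (e t))
    have g2 := Finset.card_union_le (F.image fun t => y (e t)) (F.image fun t => z (e t))
    rw [← hS₀] at g1
    unfold vx at hk
    omega
  obtain ⟨S, hS, hSc⟩ := Finset.exists_superset_card_eq hcard hkV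
  refine ⟨S, hSc, hs.trans ?_⟩
  refine Finset.card_le_card_of_injOn e ?_ ?_
  · intro t ht
    rw [Finset.mem_coe] at ht
    rw [Finset.mem_coe, mem_filter]
    refine ⟨he t ht, Finset.Subset.trans ?_ hS⟩
    rw [hE _ (he t ht), hS₀]
    intro v hv
    rw [mem_insert, mem_insert, mem_singleton] at hv
    rw [mem_union, mem_union]
    rcases hv with rfl | rfl | rfl
    · exact Or.inl (mem_image_of_mem (fun t => x (e t)) ht)
    · exact Or.inr (Or.inl (mem_image_of_mem (fun t => y (e t)) ht))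
    · exact Or.inr (Or.inr (mem_image_of_mem (fun t => z (e t)) ht))
  · intro t ht t' ht' hee
    rw [Finset.mem_coe] at ht ht'
    have g1 := hel' t ht
    have g2 := hel' t' ht'
    rw [← hee] at g2
    have g3 := h2 t ht t' ht'
    exact Prod.ext (g3.1 (g1.1.symm.trans g2.1)) (Prod.ext (g3.2.1 (g1.2.1.symm.trans g2.2.1))
      (g3.2.2 (g1.2.2.symm.trans g2.2.2)))

omit [Fintype V] in
theorem ne_of_card {a b c : V} (h : ({a, b, c} : Finset V).card = 3) :
    a ≠ b ∧ a ≠ c ∧ b ≠ c := by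
  refine ⟨?_, ?_, ?_⟩
  · rintro rfl
    have h1 : ({a, a, c} : Finset V) = {a, c} := by simp
    rw [h1] at h
    have := Finset.card_le_two (a := a) (b := c)
    omega
  · rintro rfl
    have h1 : ({a, b, a} : Finset V) = {a, b} := by
      ext v
      simp only [mem_insert, mem_singleton]
      tauto
    rw [h1] at h
    have := Finset.card_le_two (a := a) (b := b)
    omega
  · rintro rfl
    have h1 : ({a, b, b} : Finset V) = {a, b} := by simp
    rw [h1] at h
    have := Finset.card_le_two (a := a) (b := b)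
    omega

omit [Fintype V] in
/-- a pair in many edges gives `k` vertices with many edges -/
theorem codeg {E : Finset (Finset V)} {a b c : Finset V → V} (hE : ∀ e ∈ E, e = {a e, b e, c e})
    (h3 : ∀ e ∈ E, e.card = 3) {k : ℕ} (hk : 3 ≤ k)
    (hno : ∀ S : Finset V, S.card = k → (E.filter fun e => e ⊆ S).card < k - 3) {e₀ : Finset V}
    (he₀ : e₀ ∈ E) : (E.filter fun e => a e = a e₀ ∧ b e = b e₀).card ≤ k := by
  by_contra hcon
  push Not at hcon
  obtain ⟨B, hB, hBc⟩ := Finset.exists_subset_card_eq (n := k - 2)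
    (s := E.filter fun e => a e = a e₀ ∧ b e = b e₀) (by omega)
  have hBm : ∀ e ∈ B, e ∈ E ∧ a e = a e₀ ∧ b e = b e₀ := fun e he => mem_filter.1 (hB he)
  have hd : ∀ e ∈ E, a e ≠ b e ∧ a e ≠ c e ∧ b e ≠ c e := by
    intro e he
    have h4 := h3 e he
    rw [hE e he] at h4
    exact ne_of_card h4
  have hinj : Set.InjOn c (B : Set (Finset V)) := by
    intro e he e' he' hce
    obtain ⟨g1, g2, g3⟩ := hBm e he
    obtain ⟨g1', g2', g3'⟩ := hBm e' he'
    rw [hE e g1, hE e' g1', g2, g3, g2', g3', hce]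
  have hc1 : (B.image c).card = k - 2 := by
    rw [Finset.card_image_of_injOn hinj, hBc]
  have ha : b e₀ ∉ B.image c := by
    rw [mem_image]
    rintro ⟨e, he, hce⟩
    obtain ⟨g1, g2, g3⟩ := hBm e he
    exact (hd e g1).2.2 (g3.trans hce.symm)
  have hb : a e₀ ∉ insert (b e₀) (B.image c) := by
    rw [mem_insert, mem_image]
    rintro (h | ⟨e, he, hce⟩)
    · exact (hd e₀ he₀).1 h
    · obtain ⟨g1, g2, g3⟩ := hBm e he
      exact (hd e g1).2.1 (g2.trans hce.symm)
  have hS : (insert (a e₀) (insert (b e₀) (B.image c))).card = k := by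
    rw [card_insert_of_notMem hb, card_insert_of_notMem ha, hc1]
    omega
  have h5 := hno _ hS
  have h6 : B.card ≤ (E.filter fun e => e ⊆ insert (a e₀) (insert (b e₀) (B.image c))).card := by
    apply Finset.card_le_card
    intro e he
    obtain ⟨g1, g2, g3⟩ := hBm e he
    rw [mem_filter]
    refine ⟨g1, ?_⟩
    rw [hE e g1]
    intro v hv
    rw [mem_insert, mem_insert, mem_singleton] at hv
    rw [mem_insert, mem_insert]
    rcases hv with rfl | rfl | rfl
    · exact Or.inl g2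
    · exact Or.inr (Or.inl g3)
    · exact Or.inr (Or.inr (mem_image_of_mem c he))
  omega

end graphs

/-- the theorem for thin 3-graphs with bounded codegrees -/
theorem graph_core {F : Finset Tr} (hF : Cont F) (K c : ℕ) (hc : 1 ≤ c) {ε : ℝ} (hε : 0 < ε)
    {k s : ℕ} (hk : vx F ≤ k) (hs : s ≤ F.card) : ∃ n₀ : ℕ,
    ∀ (V : Type) [Fintype V] [DecidableEq V], n₀ ≤ Fintype.card V → ∀ (E : Finset (Finset V))
      (x y z : Finset V → V), (∀ e ∈ E, e = {x e, y e, z e}) →
      ε * (Fintype.card V : ℝ) ^ 2 ≤ (E.card : ℝ) → ∀ f g h : V → ℝ, Function.Injective f →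
      Function.Injective g → Function.Injective h →
      Thin K (E.image fun e => (rk f (x e), rk g (y e), rk h (z e))) →
      (∀ e₀ ∈ E, (E.filter fun e => x e = x e₀ ∧ y e = y e₀).card ≤ c) →
      (∀ e₀ ∈ E, (E.filter fun e => x e = x e₀ ∧ z e = z e₀).card ≤ c) →
      (∀ e₀ ∈ E, (E.filter fun e => y e = y e₀ ∧ z e = z e₀).card ≤ c) →
      ∃ S : Finset V, S.card = k ∧ s ≤ (E.filter fun e => e ⊆ S).card := by
  obtain ⟨n₀, hn₀⟩ := hF.bounded K c hc hε
  refine ⟨max n₀ k, fun V _ _ hV E x y z hE hcard f g h hf hg hh hT h1 h2 h3 => ?_⟩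
  obtain ⟨φ, hφ⟩ : ∃ φ : Finset V → Tr, φ = fun e => (rk f (x e), rk g (y e), rk h (z e)) :=
    ⟨_, rfl⟩
  rw [← hφ] at hT
  have hφe : ∀ e, φ e = (rk f (x e), rk g (y e), rk h (z e)) := fun e => by rw [hφ]
  have hφc : ∀ e e', φ e = φ e' → x e = x e' ∧ y e = y e' ∧ z e = z e' := by
    intro e e' he
    rw [hφe, hφe] at he
    simp only [Prod.mk.injEq] at he
    exact ⟨rk_inj hf he.1, rk_inj hg he.2.1, rk_inj hh he.2.2⟩
  have hHc : (E.image φ).card = E.card := by
    apply Finset.card_image_of_injOn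
    intro e he e' he' hee
    obtain ⟨g1, g2, g3⟩ := hφc e e' hee
    rw [hE e he, hE e' he', g1, g2, g3]
  have hcop : Cop F (E.image φ) := by
    apply hn₀ (Fintype.card V) ((le_max_left _ _).trans hV)
    · intro t ht
      rw [mem_image] at ht
      obtain ⟨e, -, rfl⟩ := ht
      rw [hφe]
      simp only [InBox, zero_le, true_and, zero_add]
      exact ⟨rk_lt _ _, rk_lt _ _, rk_lt _ _⟩
    · exact hT
    · rw [hHc]
      exact hcard
    · intro t ht
      rw [mem_image] at ht
      obtain ⟨e₀, he₀, rfl⟩ := ht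
      refine le_trans ?_ (h1 e₀ he₀)
      refine (Finset.card_le_card (t := (E.filter fun e => x e = x e₀ ∧ y e = y e₀).image φ)
        ?_).trans Finset.card_image_le
      intro t ht
      rw [mem_filter, mem_image] at ht
      obtain ⟨⟨e, he, rfl⟩, ht1, ht2⟩ := ht
      rw [hφe, hφe] at ht1 ht2
      exact mem_image_of_mem φ (mem_filter.2 ⟨he, rk_inj hf ht1, rk_inj hg ht2⟩)
    · intro t ht
      rw [mem_image] at ht
      obtain ⟨e₀, he₀, rfl⟩ := ht
      refine le_trans ?_ (h2 e₀ he₀)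
      refine (Finset.card_le_card (t := (E.filter fun e => x e = x e₀ ∧ z e = z e₀).image φ)
        ?_).trans Finset.card_image_le
      intro t ht
      rw [mem_filter, mem_image] at ht
      obtain ⟨⟨e, he, rfl⟩, ht1, ht2⟩ := ht
      rw [hφe, hφe] at ht1 ht2
      exact mem_image_of_mem φ (mem_filter.2 ⟨he, rk_inj hf ht1, rk_inj hh ht2⟩)
    · intro t ht
      rw [mem_image] at ht
      obtain ⟨e₀, he₀, rfl⟩ := ht
      refine le_trans ?_ (h3 e₀ he₀)
      refine (Finset.card_le_card (t := (E.filter fun e => y e = y e₀ ∧ z e = z e₀).image φ)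
        ?_).trans Finset.card_image_le
      intro t ht
      rw [mem_filter, mem_image] at ht
      obtain ⟨⟨e, he, rfl⟩, ht1, ht2⟩ := ht
      rw [hφe, hφe] at ht1 ht2
      exact mem_image_of_mem φ (mem_filter.2 ⟨he, rk_inj hg ht1, rk_inj hh ht2⟩)
  rw [hφ] at hcop
  exact span_of_cop hE hf hg hh hcop hk hs ((le_max_right _ _).trans hV)

end BESO
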