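import Mathlib
import Pool.Agent.Lib.MP_c82047_co_OB.Fin

set_option autoImplicit false

/-!
# MP_c82047_co: main theorems
-/

namespace BESO

open Finset

/-- the edges of `E` contain every ordered matching of size `r`, for all labellings and orders -/
def Univ {V : Type} [DecidableEq V] (r : ℕ) (E : Finset (Finset V)) : Prop :=
  ∀ x y z : Finset V → V, (∀ e ∈ E, e = {x e, y e, z e}) → ∀ f g h : V → ℝ,
    Function.Injective f → Function.Injective g → Function.Injective h →
    ∀ σ τ : Equiv.Perm (Fin r), ∃ e : Fin r → Finset V, (∀ i, e i ∈ E) ∧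
      StrictMono (fun i => f (x (e i))) ∧ StrictMono (fun i => g (y (e (σ i)))) ∧
        StrictMono (fun i => h (z (e (τ i))))

theorem Thin.le {K K' : ℕ} {H : Finset Tr} (h : Thin K H) (hK : K ≤ K') : Thin K' H :=
  fun M m q hM => (h M m q hM).trans (Nat.mul_le_mul_right _ hK)

/-- one constant for all patterns of size `r` -/
theorem exists_thin (r : ℕ) : ∃ K : ℕ, ∀ (σ τ : Equiv.Perm (Fin r)) (H : Finset Tr),
    ¬ PT (fun j => (j : ℕ)) (fun j => (σ.symm j : ℕ)) (fun j => (τ.symm j : ℕ)) H → Thin K H := by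
  have h : ∀ p : Equiv.Perm (Fin r) × Equiv.Perm (Fin r), ∃ K : ℕ, ∀ H : Finset Tr,
      ¬ PT (fun j => (j : ℕ)) (fun j => (p.1.symm j : ℕ)) (fun j => (p.2.symm j : ℕ)) H →
        Thin K H := fun p => thin_of_avoid _ _ _
  choose K hK using h
  refine ⟨∑ p, K p, fun σ τ H hH => (hK (σ, τ) H hH).le ?_⟩
  exact Finset.single_le_sum (f := K) (fun _ _ => Nat.zero_le _) (mem_univ (σ, τ))

/-- not universal: thin for some labelling and some orders -/
theorem thin_of_not_univ {r K : ℕ} (hK : ∀ (σ τ : Equiv.Perm (Fin r)) (H : Finset Tr),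
    ¬ PT (fun j => (j : ℕ)) (fun j => (σ.symm j : ℕ)) (fun j => (τ.symm j : ℕ)) H → Thin K H)
    {V : Type} [Fintype V] [DecidableEq V] {E : Finset (Finset V)} (h : ¬ Univ r E) :
    ∃ (x y z : Finset V → V) (f g h : V → ℝ), (∀ e ∈ E, e = {x e, y e, z e}) ∧
      Function.Injective f ∧ Function.Injective g ∧ Function.Injective h ∧
        Thin K (E.image fun e => (rk f (x e), rk g (y e), rk h (z e))) := by
  unfold Univ at h
  push Not at h
  obtain ⟨x, y, z, hE, f, g, h, hf, hg, hh, σ, τ, hno⟩ := h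
  refine ⟨x, y, z, f, g, h, hE, hf, hg, hh, hK σ τ _ ?_⟩
  rintro ⟨q, hq, ho⟩
  have h1 : ∀ j, ∃ e ∈ E, (rk f (x e), rk g (y e), rk h (z e)) = q j :=
    fun j => mem_image.1 (hq j)
  choose e he heq using h1
  refine hno e he ?_ ?_ ?_
  · intro i j hij
    have h2 := (ho i j).1 hij
    rw [← heq i, ← heq j] at h2
    exact rk_lt_iff.1 h2
  · intro i j hij
    have h2 := (ho (σ i) (σ j)).2.1 (by simpa using hij)
    rw [← heq (σ i), ← heq (σ j)] at h2
    exact rk_lt_iff.1 h2
  · intro i j hij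
    have h2 := (ho (τ i) (τ j)).2.2 (by simpa using hij)
    rw [← heq (τ i), ← heq (τ j)] at h2
    exact rk_lt_iff.1 h2

theorem perm1 {V : Type} [DecidableEq V] (a b c : V) :
    ({a, b, c} : Finset V) = {a, c, b} := by
  ext v
  simp only [mem_insert, mem_singleton]
  tauto

theorem perm2 {V : Type} [DecidableEq V] (a b c : V) :
    ({a, b, c} : Finset V) = {b, c, a} := by
  ext v
  simp only [mem_insert, mem_singleton]
  tauto

/-- the first theorem -/
theorem main_univ {k : ℕ} (hk : k = 6 ∨ 9 ≤ k) (r : ℕ) {ε : ℝ} (hε : 0 < ε) : ∃ n₀ : ℕ,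
    ∀ (V : Type) [Fintype V] [DecidableEq V], n₀ ≤ Fintype.card V → ∀ E : Finset (Finset V),
      (∀ e ∈ E, e.card = 3) → ε * (Fintype.card V : ℝ) ^ 2 ≤ (E.card : ℝ) →
      (∀ S : Finset V, S.card = k → (E.filter fun e => e ⊆ S).card < k - 3) → Univ r E := by
  obtain ⟨K, hK⟩ := exists_thin r
  obtain ⟨F, hF, -, hFk, hFs⟩ := has_all hk
  obtain ⟨n₀, hn₀⟩ := graph_core hF K k (by omega) hε hFk hFs
  refine ⟨n₀, fun V _ _ hV E h3 hcard hno => ?_⟩
  by_contra hu
  obtain ⟨x, y, z, f, g, h, hE, hf, hg, hh, hT⟩ := thin_of_not_univ hK hu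
  obtain ⟨S, hS, hS'⟩ := hn₀ V hV E x y z hE hcard f g h hf hg hh hT
    (fun e₀ he₀ => codeg hE h3 (by omega) hno he₀)
    (fun e₀ he₀ => codeg (a := x) (b := z) (c := y) (fun e he => (hE e he).trans (perm1 _ _ _))
      h3 (by omega) hno he₀)
    (fun e₀ he₀ => codeg (a := y) (b := z) (c := x) (fun e he => (hE e he).trans (perm2 _ _ _))
      h3 (by omega) hno he₀)
  exact absurd hS' (not_le_of_gt (hno S hS))

/-- linear 3-graphs have codegrees at most one -/
theorem codeg_lin {V : Type} [DecidableEq V] {E : Finset (Finset V)} {a b c : Finset V → V}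
    (hE : ∀ e ∈ E, e = {a e, b e, c e}) (h3 : ∀ e ∈ E, e.card = 3)
    (hL : ∀ e ∈ E, ∀ e' ∈ E, e ≠ e' → (e ∩ e').card ≤ 1) {e₀ : Finset V} (he₀ : e₀ ∈ E) :
    (E.filter fun e => a e = a e₀ ∧ b e = b e₀).card ≤ 1 := by
  rw [Finset.card_le_one]
  have key : ∀ e ∈ E.filter (fun e => a e = a e₀ ∧ b e = b e₀), e = e₀ := by
    intro e he
    rw [mem_filter] at he
    by_contra hne
    have h1 := hL e he.1 e₀ he₀ hne
    have h2 : ({a e₀, b e₀} : Finset V) ⊆ e ∩ e₀ := by
      intro v hv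
      rw [mem_insert, mem_singleton] at hv
      rw [mem_inter, hE e he.1, hE e₀ he₀]
      simp only [mem_insert, mem_singleton]
      rcases hv with rfl | rfl
      · exact ⟨Or.inl he.2.1.symm, Or.inl rfl⟩
      · exact ⟨Or.inr (Or.inl he.2.2.symm), Or.inr (Or.inl rfl)⟩
    have h4 := Finset.card_le_card h2
    have h5 : a e₀ ≠ b e₀ := by
      have h6 := h3 e₀ he₀
      rw [hE e₀ he₀] at h6
      exact (ne_of_card h6).1
    rw [Finset.card_pair h5] at h4
    omega
  intro e he e' he'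
  rw [key e he, key e' he']

/-- the second theorem -/
theorem main_super (m r : ℕ) {ε : ℝ} (hε : 0 < ε) : ∃ n₀ : ℕ,
    ∀ (V : Type) [Fintype V] [DecidableEq V], n₀ ≤ Fintype.card V → ∀ E : Finset (Finset V),
      (∀ e ∈ E, e.card = 3) → (∀ e ∈ E, ∀ e' ∈ E, e ≠ e' → (e ∩ e').card ≤ 1) →
      ε * (Fintype.card V : ℝ) ^ 2 ≤ (E.card : ℝ) →
      (∀ S : Finset V, S.card = 3 * 2 ^ m → (E.filter fun e => e ⊆ S).card < 3 ^ m) →
        Univ r E := by
  obtain ⟨K, hK⟩ := exists_thin r
  obtain ⟨hF, -, hFs, hFk⟩ := pw_facts m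
  obtain ⟨n₀, hn₀⟩ := graph_core hF K 1 le_rfl hε hFk hFs.ge
  refine ⟨n₀, fun V _ _ hV E h3 hL hcard hno => ?_⟩
  by_contra hu
  obtain ⟨x, y, z, f, g, h, hE, hf, hg, hh, hT⟩ := thin_of_not_univ hK hu
  obtain ⟨S, hS, hS'⟩ := hn₀ V hV E x y z hE hcard f g h hf hg hh hT
    (fun e₀ he₀ => codeg_lin hE h3 hL he₀)
    (fun e₀ he₀ => codeg_lin (a := x) (b := z) (c := y)
      (fun e he => (hE e he).trans (perm1 _ _ _)) h3 hL he₀)
    (fun e₀ he₀ => codeg_lin (a := y) (b := z) (c := x)
      (fun e he => (hE e he).trans (perm2 _ _ _)) h3 hL he₀)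
  exact absurd hS' (not_le_of_gt (hno S hS))

/-- the points of a set of cells with values -/
def pts (f : ℕ × ℕ → ℤ) (B : Finset (ℕ × ℕ)) : ℕ :=
  (B.image fun b => b.1).card + (B.image fun b => b.2).card + (B.image f).card

/-- the third theorem -/
theorem main_lip {k : ℕ} (hk : k = 6 ∨ 9 ≤ k) (L : ℕ) {ε : ℝ} (hε : 0 < ε) : ∃ n₀ : ℕ,
    ∀ n : ℕ, n₀ ≤ n → ∀ A : Finset (ℕ × ℕ), A ⊆ range n ×ˢ range n →
      ε * (n : ℝ) ^ 2 ≤ (A.card : ℝ) → ∀ f : ℕ × ℕ → ℤ,
      (∀ a ∈ A, ∀ b ∈ A, |f a - f b| ≤ L * (|(a.1 : ℤ) - b.1| + |(a.2 : ℤ) - b.2|)) →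
        ∃ B : Finset (ℕ × ℕ), B ⊆ A ∧ B.card = k - 3 ∧ pts f B ≤ k := by
  classical
  obtain ⟨F, hF, -, hFk, hFs⟩ := has_all hk
  obtain ⟨n₁, hn₁⟩ := hF.bounded (2 * L + 2) k (by omega)
    (ε := ε / (2 * (L : ℝ) + 1) ^ 2) (by positivity)
  refine ⟨n₁ + 1, fun n hn A hA hcard f hf => ?_⟩
  have hn0 : (0 : ℝ) < n := by
    have : 0 < n := by omega
    exact_mod_cast this
  have hA0 : A.Nonempty := by
    rw [← Finset.card_pos]
    have : (0 : ℝ) < A.card := lt_of_lt_of_le (by positivity) hcard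
    exact_mod_cast this
  obtain ⟨a₀, ha₀, hmin⟩ := Finset.exists_min_image A f hA0
  by_contra hcon
  push Not at hcon
  have hAr : ∀ a ∈ A, a.1 < n ∧ a.2 < n := by
    intro a ha
    have := hA ha
    rwa [mem_product, mem_range, mem_range] at this
  -- the values, shifted
  obtain ⟨v, hv⟩ : ∃ v : ℕ × ℕ → ℕ, ∀ a ∈ A, (v a : ℤ) = f a - f a₀ :=
    ⟨fun a => (f a - f a₀).toNat, fun a ha => Int.toNat_of_nonneg (sub_nonneg.2 (hmin a ha))⟩
  have hvl : ∀ a ∈ A, v a < (2 * L + 1) * n := by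
    intro a ha
    have h1 := hf a ha a₀ ha₀
    have h2 := hAr a ha
    have h3 := hAr a₀ ha₀
    have h4 : |(a.1 : ℤ) - a₀.1| + |(a.2 : ℤ) - a₀.2| ≤ 2 * n := by
      have g1 : |(a.1 : ℤ) - a₀.1| ≤ n := by
        rw [abs_le]
        constructor <;> omega
      have g2 : |(a.2 : ℤ) - a₀.2| ≤ n := by
        rw [abs_le]
        constructor <;> omega
      linarith
    have h5 : f a - f a₀ ≤ L * (2 * n) :=
      (le_abs_self _).trans (h1.trans (mul_le_mul_of_nonneg_left h4 (by positivity)))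
    have h6 : (v a : ℤ) < (2 * L + 1) * n := by
      rw [hv a ha]
      have : (0 : ℤ) < n := by exact_mod_cast (show 0 < n by omega)
      linarith
    exact_mod_cast h6
  obtain ⟨φ, hφ⟩ : ∃ φ : ℕ × ℕ → Tr, φ = fun a => (a.1, a.2, v a) := ⟨_, rfl⟩
  have hφa : ∀ a, φ a = (a.1, a.2, v a) := fun a => by rw [hφ]
  have hφi : Function.Injective φ := by
    intro a b h
    rw [hφa, hφa] at h
    simp only [Prod.mk.injEq] at h
    exact Prod.ext h.1 h.2.1
  -- few cells in a line with a given value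
  have hbd : ∀ C : Finset (ℕ × ℕ), C ⊆ A → (C.image f).card ≤ 1 →
      ((C.image fun b => b.1).card ≤ 1 ∨ (C.image fun b => b.2).card ≤ 1) → C.card ≤ k := by
    intro C hC h1 h2
    by_contra h3
    push Not at h3
    obtain ⟨B, hB, hBc⟩ := Finset.exists_subset_card_eq (n := k - 3) (s := C) (by omega)
    have h4 := hcon B (hB.trans hC) hBc
    have h5 : (B.image f).card ≤ 1 :=
      (Finset.card_le_card (Finset.image_subset_image hB)).trans h1
    have h6 : (B.image fun b => b.1).card ≤ B.card := Finset.card_image_le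
    have h7 : (B.image fun b => b.2).card ≤ B.card := Finset.card_image_le
    unfold pts at h4
    rcases h2 with h2 | h2
    · have h8 : (B.image fun b => b.1).card ≤ 1 :=
        (Finset.card_le_card (Finset.image_subset_image hB)).trans h2
      omega
    · have h8 : (B.image fun b => b.2).card ≤ 1 :=
        (Finset.card_le_card (Finset.image_subset_image hB)).trans h2
      omega
  have hcop : Cop F (A.image φ) := by
    apply hn₁ ((2 * L + 1) * n)
    · have : 1 * n ≤ (2 * L + 1) * n := Nat.mul_le_mul_right _ (by omega)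
      omega
    · intro t ht
      rw [mem_image] at ht
      obtain ⟨a, ha, rfl⟩ := ht
      rw [hφa]
      simp only [InBox, zero_le, true_and, zero_add]
      have h1 := hAr a ha
      have : 1 * n ≤ (2 * L + 1) * n := Nat.mul_le_mul_right _ (by omega)
      exact ⟨by omega, by omega, hvl a ha⟩
    · apply thin_of_lip
      intro t ht t' ht'
      rw [mem_image] at ht ht'
      obtain ⟨a, ha, rfl⟩ := ht
      obtain ⟨b, hb, rfl⟩ := ht'
      rw [hφa, hφa]
      simp only
      rw [hv a ha, hv b hb]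
      have := hf a ha b hb
      rwa [sub_sub_sub_cancel_right]
    · rw [Finset.card_image_of_injective _ hφi]
      push_cast
      have h1 : ε / (2 * (L : ℝ) + 1) ^ 2 * ((2 * (L : ℝ) + 1) * n) ^ 2 = ε * (n : ℝ) ^ 2 := by
        field_simp
      rw [h1]
      exact hcard
    · intro t ht
      rw [mem_image] at ht
      obtain ⟨a, ha, rfl⟩ := ht
      have h1 : ((A.image φ).filter fun t' => t'.1 = (φ a).1 ∧ t'.2.1 = (φ a).2.1).card ≤ 1 := by
        rw [Finset.card_le_one]
        intro s hs s' hs'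
        rw [mem_filter, mem_image] at hs hs'
        obtain ⟨⟨b, -, rfl⟩, hb1, hb2⟩ := hs
        obtain ⟨⟨b', -, rfl⟩, hb1', hb2'⟩ := hs'
        rw [hφa, hφa] at hb1 hb2 hb1' hb2'
        have : b = b' := Prod.ext (hb1.trans hb1'.symm) (hb2.trans hb2'.symm)
        rw [this]
      omega
    · intro t ht
      rw [mem_image] at ht
      obtain ⟨a, ha, rfl⟩ := ht
      have h1 : ((A.image φ).filter fun t' => t'.1 = (φ a).1 ∧ t'.2.2 = (φ a).2.2) ⊆
          (A.filter fun b => b.1 = a.1 ∧ f b = f a).image φ := by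
        intro s hs
        rw [mem_filter, mem_image] at hs
        obtain ⟨⟨b, hb, rfl⟩, hb1, hb2⟩ := hs
        rw [hφa, hφa] at hb1 hb2
        refine mem_image_of_mem φ (mem_filter.2 ⟨hb, hb1, ?_⟩)
        have g1 := hv a ha
        have g2 := hv b hb
        simp only at hb2
        rw [hb2, g1] at g2
        linarith
      refine (Finset.card_le_card h1).trans (Finset.card_image_le.trans ?_)
      apply hbd _ (Finset.filter_subset _ _)
      · rw [Finset.card_le_one]
        intro s hs s' hs'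
        rw [mem_image] at hs hs'
        obtain ⟨b, hb, rfl⟩ := hs
        obtain ⟨b', hb', rfl⟩ := hs'
        rw [mem_filter] at hb hb'
        rw [hb.2.2, hb'.2.2]
      · left
        rw [Finset.card_le_one]
        intro s hs s' hs'
        rw [mem_image] at hs hs'
        obtain ⟨b, hb, rfl⟩ := hs
        obtain ⟨b', hb', rfl⟩ := hs'
        rw [mem_filter] at hb hb'
        rw [hb.2.1, hb'.2.1]
    · intro t ht
      rw [mem_image] at ht
      obtain ⟨a, ha, rfl⟩ := ht
      have h1 : ((A.image φ).filter fun t' => t'.2.1 = (φ a).2.1 ∧ t'.2.2 = (φ a).2.2) ⊆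
          (A.filter fun b => b.2 = a.2 ∧ f b = f a).image φ := by
        intro s hs
        rw [mem_filter, mem_image] at hs
        obtain ⟨⟨b, hb, rfl⟩, hb1, hb2⟩ := hs
        rw [hφa, hφa] at hb1 hb2
        refine mem_image_of_mem φ (mem_filter.2 ⟨hb, hb1, ?_⟩)
        have g1 := hv a ha
        have g2 := hv b hb
        simp only at hb2
        rw [hb2, g1] at g2
        linarith
      refine (Finset.card_le_card h1).trans (Finset.card_image_le.trans ?_)
      apply hbd _ (Finset.filter_subset _ _)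
      · rw [Finset.card_le_one]
        intro s hs s' hs'
        rw [mem_image] at hs hs'
        obtain ⟨b, hb, rfl⟩ := hs
        obtain ⟨b', hb', rfl⟩ := hs'
        rw [mem_filter] at hb hb'
        rw [hb.2.2, hb'.2.2]
      · right
        rw [Finset.card_le_one]
        intro s hs s' hs'
        rw [mem_image] at hs hs'
        obtain ⟨b, hb, rfl⟩ := hs
        obtain ⟨b', hb', rfl⟩ := hs'
        rw [mem_filter] at hb hb'
        rw [hb.2.1, hb'.2.1]
  obtain ⟨α, β, γ, h1, h2⟩ := hcop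
  obtain ⟨F', hF', hFc⟩ := Finset.exists_subset_card_eq hFs
  have hcell : ∀ t ∈ F', (α t.1, β t.2.1) ∈ A ∧ v (α t.1, β t.2.1) = γ t.2.2 := by
    intro t ht
    have h3 := h1 t (hF' ht)
    rw [mem_image] at h3
    obtain ⟨a, ha, hae⟩ := h3
    rw [hφa] at hae
    simp only [Prod.mk.injEq] at hae
    have e : a = (α t.1, β t.2.1) := Prod.ext hae.1 hae.2.1
    rw [← e]
    exact ⟨ha, hae.2.2⟩
  obtain ⟨B, hBd⟩ : ∃ B, B = F'.image fun t => (α t.1, β t.2.1) := ⟨_, rfl⟩
  have hBA : B ⊆ A := by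
    intro b hb
    rw [hBd, mem_image] at hb
    obtain ⟨t, ht, rfl⟩ := hb
    exact (hcell t ht).1
  have hBc : B.card = k - 3 := by
    rw [hBd, Finset.card_image_of_injOn, hFc]
    intro t ht t' ht' h
    rw [Finset.mem_coe] at ht ht'
    simp only [Prod.mk.injEq] at h
    have h3 := h2 t (hF' ht) t' (hF' ht')
    refine Prod.ext (h3.1 h.1) (Prod.ext (h3.2.1 h.2) (h3.2.2 ?_))
    rw [← (hcell t ht).2, ← (hcell t' ht').2, h.1, h.2]
  have h4 := hcon B hBA hBc
  have k1 : (B.image fun b => b.1).card ≤ (F.image fun t => t.1).card := by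
    have : (B.image fun b => b.1) ⊆ (F.image fun t => t.1).image α := by
      intro s hs
      rw [mem_image] at hs
      obtain ⟨b, hb, rfl⟩ := hs
      rw [hBd, mem_image] at hb
      obtain ⟨t, ht, rfl⟩ := hb
      exact mem_image_of_mem α (mem_image_of_mem (fun t : Tr => t.1) (hF' ht))
    exact (Finset.card_le_card this).trans Finset.card_image_le
  have k2 : (B.image fun b => b.2).card ≤ (F.image fun t => t.2.1).card := by
    have : (B.image fun b => b.2) ⊆ (F.image fun t => t.2.1).image β := by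
      intro s hs
      rw [mem_image] at hs
      obtain ⟨b, hb, rfl⟩ := hs
      rw [hBd, mem_image] at hb
      obtain ⟨t, ht, rfl⟩ := hb
      exact mem_image_of_mem β (mem_image_of_mem (fun t : Tr => t.2.1) (hF' ht))
    exact (Finset.card_le_card this).trans Finset.card_image_le
  have k3 : (B.image f).card ≤ (F.image fun t => t.2.2).card := by
    have : (B.image f) ⊆ (F.image fun t => t.2.2).image fun i => (γ i : ℤ) + f a₀ := by
      intro s hs
      rw [mem_image] at hs
      obtain ⟨b, hb, rfl⟩ := hs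
      rw [hBd, mem_image] at hb
      obtain ⟨t, ht, rfl⟩ := hb
      rw [mem_image]
      refine ⟨t.2.2, mem_image_of_mem (fun t : Tr => t.2.2) (hF' ht), ?_⟩
      have h5 := hcell t ht
      have h6 := hv _ h5.1
      rw [h5.2] at h6
      linarith
    exact (Finset.card_le_card this).trans Finset.card_image_le
  unfold pts at h4
  unfold vx at hFk
  omega

end BESO
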